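import Pool.Agent.DI.OpnX
import Pool.Agent.DI.P5Def

/-!
# `p_4`, `p_5` of an opened complex (owner: helper19)

`OpW.P4_le`, `OpW.P5_le`: for opening data `O` (both forms `K°` and `K⁺`) the characters of `O.gx` are
characters of `K`. `OpW.p4_le`, `OpW.p5_le`.
-/

namespace Pool.Agent.DI

open MulAction
open Pool.Agent.SAF (InC orbs FinOrb)
open Pool.Agent.SAG (IO Zt)

namespace OpW

variable {H V W : Type} [Group H] [MulAction H V] [MulAction H W] {K : GX H V} (O : OpW K W)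

/-- over a sink there is one vertex -/
theorem snk_uniq {x y : W} (hx : K.Snk (O.π x)) (e : O.π x = O.π y) : x = y := by
  by_contra hne
  obtain ⟨a, ha⟩ := O.pole x y e hne
  exact hx a ha

theorem snk_smul {y : W} (hy : K.Snk (O.π y)) {a : H} : a • O.π y = O.π y ↔ a • y = y := by
  constructor
  · intro h
    exact (O.snk_uniq (x := y) (y := a • y) hy (by rw [O.π_smul, h])).symm
  · intro h
    rw [← O.π_smul, h]

/-- a sink of the complex in a cell -/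
theorem snk_up {y : V} (hy : K.Snk y) (hv : K.VC y) : ∃ y' : W, O.π y' = y ∧ O.gx.Snk y' ∧
    O.gx.VC y' ∧ stabilizer H y' = stabilizer H y := by
  obtain ⟨x, hx⟩ := hv
  obtain ⟨m, hm⟩ := GX.EC_iff.1 hx.symm
  obtain ⟨x', y', m', -, rfl, -, h4⟩ := O.Cor_lift hm
  refine ⟨y', rfl, fun a ha => hy _ (O.ar_π ha), ⟨x', (GX.EC_iff.2 ⟨m', h4⟩).symm⟩, ?_⟩
  ext a
  exact (O.snk_smul hy).symm

/-- the groups of the pieces -/
theorem PG_up (ht : O.Tw) {y n : V} {a : H} (h : K.PG y n a) :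
    ∃ y' n' : W, O.π y' = y ∧ O.π n' = n ∧ O.gx.PG y' n' a := by
  obtain ⟨⟨b, h1⟩, h2, h3, h4, h5⟩ := h
  obtain ⟨m, hm⟩ := GX.EC_iff.1 h3
  obtain ⟨n', y', m', rfl, rfl, -, h6⟩ := O.Cor_lift hm
  have har : O.gx.ar n' y' := O.ar_of_E h6.E1.symm h2
  have hg := (O.grp_piece ht har (j := a)).2 ⟨h4, h5⟩
  refine ⟨y', n', rfl, rfl, ⟨O.e (O.π y') b, O.ar_e y' h1⟩, har, GX.EC_iff.2 ⟨m', h6⟩, hg.1, hg.2⟩

/-- an element which fixes a vertex and a pole below fixes the pole above -/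
theorem fix_pole {y b : W} {a : H} (hb : O.gx.ar y b) (h1 : a • y = y)
    (h2 : a • O.π b = O.π b) : a • b = b := by
  have e := O.ar_e' hb
  calc a • b = a • O.e (O.π y) (O.π b) := by rw [e]
    _ = O.e (a • O.π y) (a • O.π b) := (O.e_smul a _ _ (O.ar_π hb)).symm
    _ = O.e (O.π y) (O.π b) := by rw [h2, ← O.π_smul, h1]
    _ = b := e

theorem P5_le (ht : O.Tw) : O.gx.P5 ≤ K.P5 := by
  rintro φ ⟨h1, h2⟩
  refine ⟨fun y hy hv a ha => ?_, fun y n a ha hp => ?_⟩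
  · obtain ⟨y', rfl, k1, k2, k3⟩ := O.snk_up hy hv
    refine h1 y' k1 k2 a ?_
    obtain ⟨e1, e2, t, e3, e4, e5⟩ := ha
    exact ⟨(O.snk_smul hy).1 e1, e2, t, (O.snk_smul hy).1 e3, e4, e5⟩
  · obtain ⟨y', n', rfl, rfl, h3⟩ := O.PG_up ht ha
    exact h2 y' n' a h3 (fun b hb => O.fix_pole hb h3.2.2.2.1 (hp _ (O.ar_π hb)))

theorem P4_le (ht : O.Tw) : O.gx.P4 ≤ K.P4 := by
  rintro φ ⟨h1, h2⟩
  refine ⟨fun y hy hv a ha hz => ?_, fun y n a ha => ?_⟩
  · obtain ⟨y', rfl, k1, k2, k3⟩ := O.snk_up hy hv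
    refine h1 y' k1 k2 a ((O.snk_smul hy).1 ha) (fun z1 z2 => ?_)
    rw [k3] at z1 z2
    exact hz z1 z2
  · obtain ⟨y', n', rfl, rfl, h3⟩ := O.PG_up ht ha
    exact h2 y' n' a h3

/-- `p_5` of the opened complex -/
theorem p5_le (ht : O.Tw) : O.gx.p5 ≤ K.p5 := by
  have := K.finite_P5
  exact Submodule.finrank_mono (O.P5_le ht)

/-- `p_4` of the opened complex -/
theorem p4_le (ht : O.Tw) : O.gx.p4 ≤ K.p4 := by
  have := K.finite_P4
  exact Submodule.finrank_mono (O.P4_le ht)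

end OpW

end Pool.Agent.DI
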