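import Pool.Agent.DI19.H2
import Pool.Agent.DI.C5P
import Pool.Agent.DI.P4

/-!
# Extension of characters at an inverted edge of type (ii)

`exists_homM_b`: `H = H_w *_J U`, `b ∈ U - J`: a homomorphism `ψ` of `H_w` with `ψ (b j b⁻¹) = ψ j`
(`j ∈ J`) and `ψ (b b) = m + m` extends to `H` with value `m` at `b`.
`DL.conj_N`: an automorphism of a group of type `D_inf` which keeps two mirrored finite subgroups with
different places acts trivially modulo the kernel. `T5.ext_N`: characters of the stabiliser of `w` which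
kill the kernel of the edge group extend.
-/

namespace Pool.Agent.DI

open MulAction
open Pool.Agent.SAF (InC orbs FinOrb TAct Conv exists_next)
open Pool.Agent.SAG (IO Zt)

section gen

variable {X M : Type} [AddCommGroup M] {H : Type} [Group H] [MulAction H X]
  {G : SimpleGraph X} (hG : G.IsTree)
  (hsm : ∀ (h : H) (x y : X), G.Adj x y → G.Adj (h • x) (h • y)) {w u : X}
  (he : ∀ x y, G.Adj x y → ∃ h : H, (h • w = x ∧ h • u = y) ∨ (h • w = y ∧ h • u = x))
  (hwu : G.Adj w u)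

include hG hsm he hwu in
/-- extension with a prescribed value at `b` -/
theorem exists_homM_b (hne : ∀ h : H, h • w ≠ u) {b : H} (hbu : b • u = u) (hbw : b • w ≠ w)
    (hb2 : ∀ g : H, g • u = u → g • w ≠ w → (g * b⁻¹) • w = w)
    (ψ : Hm ↥(stabilizer H w) M)
    (hc : ∀ j : H, j • w = w → j • u = u → exm ψ (b * j * b⁻¹) = exm ψ j) (m : M)
    (hm : exm ψ (b * b) = m + m) :
    ∃ φ : Hm H M, resm _ φ = ψ ∧ hmv φ b = m := by
  classical
  have hbu' : b⁻¹ • u = u := by rw [inv_smul_eq_iff, hbu]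
  have hbb : (b * b) • w = w := by
    have h1 : ((b * b) * b⁻¹) • w ≠ w := by
      rw [mul_inv_cancel_right]; exact hbw
    by_contra h2
    exact h1 (hb2 _ (by rw [mul_smul, hbu, hbu]) h2)
  -- conjugation by `b` keeps the edge group
  have hJ : ∀ j : H, j • w = w → j • u = u → (b * j * b⁻¹) • w = w := by
    intro j h1 h2
    by_contra h3
    have h4 := hb2 (b * j * b⁻¹) (by rw [mul_smul, mul_smul, hbu', h2, hbu]) h3
    -- `b j b⁻² w = w`
    have h5 : (b⁻¹ * b⁻¹) • w = w := by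
      have e : (b⁻¹ * b⁻¹) = (b * b)⁻¹ := by group
      rw [e, inv_smul_eq_iff, hbb]
    have h6 : (b * j * b⁻¹ * b⁻¹) • w = b • w := by
      have e : b * j * b⁻¹ * b⁻¹ = b * j * (b⁻¹ * b⁻¹) := by group
      rw [e, mul_smul, h5, mul_smul, h1]
    rw [h6] at h4
    exact hbw h4
  let f : H → M := fun g => if g • w = w then exm ψ g else exm ψ (g * b⁻¹) + m
  have hf1 : ∀ g : H, g • w = w → f g = exm ψ g := fun g h => if_pos h
  have hf2 : ∀ g : H, g • w ≠ w → f g = exm ψ (g * b⁻¹) + m := fun g h => if_neg h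
  have key : ∀ a c : H, a • w = w → c • w = w → exm ψ (a * c) = exm ψ a + exm ψ c := by
    intro a c ha hcc
    exact exm_mul ψ ha hcc
  have hmul : ∀ a c : H, a • u = u → c • u = u → f (a * c) = f a + f c := by
    intro a c ha hcu
    by_cases h1 : a • w = w
    · by_cases h2 : c • w = w
      · rw [hf1 _ h1, hf1 _ h2, hf1 _ (by rw [mul_smul, h2, h1]), key _ _ h1 h2]
      · have h3 : (a * c) • w ≠ w := by
          intro e
          apply h2
          rw [mul_smul] at e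
          calc c • w = a⁻¹ • a • c • w := (inv_smul_smul _ _).symm
            _ = w := by rw [e, inv_smul_eq_iff, h1]
        rw [hf1 _ h1, hf2 _ h2, hf2 _ h3]
        have e : a * c * b⁻¹ = a * (c * b⁻¹) := by group
        rw [e, key _ _ h1 (hb2 c hcu h2), add_assoc]
    · by_cases h2 : c • w = w
      · have h3 : (a * c) • w ≠ w := by
          intro e
          apply h1
          rwa [mul_smul, h2] at e
        rw [hf2 _ h1, hf1 _ h2, hf2 _ h3]
        have e : a * c * b⁻¹ = (a * b⁻¹) * (b * c * b⁻¹) := by group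
        rw [e, key _ _ (hb2 a ha h1) (hJ c h2 hcu), hc c h2 hcu]
        abel
      · have h3 : (a * c) • w = w := by
          have e : a * c = (a * b⁻¹) * (b * (c * b⁻¹) * b⁻¹) * (b * b) := by group
          have e1 : (c * b⁻¹) • u = u := by rw [mul_smul, hbu', hcu]
          rw [e, mul_smul, hbb, mul_smul, hJ _ (hb2 c hcu h2) e1, hb2 a ha h1]
        rw [hf2 _ h1, hf2 _ h2, hf1 _ h3]
        have e : a * c = (a * b⁻¹) * (b * (c * b⁻¹) * b⁻¹) * (b * b) := by group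
        have e1 : (c * b⁻¹) • u = u := by rw [mul_smul, hbu', hcu]
        have e2 := hJ _ (hb2 c hcu h2) e1
        rw [e, key _ _ (by rw [mul_smul, e2, hb2 a ha h1]) hbb, key _ _ (hb2 a ha h1) e2,
          hc _ (hb2 c hcu h2) e1, hm]
        abel
  let ψu : Hm ↥(stabilizer H u) M := mkHm (fun g => f g.1) (by
    rintro ⟨a, ha⟩ ⟨c, hcu⟩
    exact hmul a c ha hcu)
  obtain ⟨φ, h1, h2⟩ := exists_homM_inv hG hsm he hwu hne ψ ψu (by
    intro a ha hb
    show hmv ψ ⟨a, ha⟩ = f a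
    rw [hf1 a ha, exm_of ψ ha])
  refine ⟨φ, h1, ?_⟩
  have h3 := congrArg (fun χ => hmv χ (⟨b, hbu⟩ : ↥(stabilizer H u))) h2
  refine h3.trans ?_
  show f b = m
  rw [hf2 b hbw, mul_inv_cancel]
  have h4 := key 1 1 (one_smul _ _) (one_smul _ _)
  rw [mul_one] at h4
  have h5 : exm ψ (1 : H) = 0 := left_eq_add.1 h4
  rw [h5, zero_add]

end gen

/-! ### automorphisms -/

namespace DL

variable {J : Type} [Group J] (L : DL J)

/-- an automorphism which keeps two mirrored subgroups with different places acts trivially on the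
line -/
theorem conj_N (f : J ≃* J) {A B : Subgroup J} (hfA : ∀ a ∈ A, f a ∈ A) (hfB : ∀ a ∈ B, f a ∈ B)
    {p q : ℤ} (hA : A ≤ L.St p) (hB : B ≤ L.St q) (hmA : L.Mir A) (hmB : L.Mir B) (hpq : p ≠ q)
    (g : J) : f g * g⁻¹ ∈ L.N := by
  obtain ⟨c, o, hc, h1, h2, h3, h4⟩ := exists_emb L L f.toMonoidHom f.injective
  have h1' : ∀ g, L.ε (f g) = L.ε g := h1
  have h2' : ∀ g, L.ε g = 1 → L.τ (f g) = c * L.τ g := h2
  have h3' : ∀ g, L.ε g = -1 → L.τ (f g) = o + c * L.τ g := h3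
  have h4' : ∀ g n, L.act (f g) (o + c * n) = o + c * L.act g n := h4
  obtain ⟨a, haA, ha⟩ := hmA.refl hA
  obtain ⟨b, hbB, hb⟩ := hmB.refl hB
  have e1 : L.act (f a) (o + c * p) = o + c * p := by rw [h4', ha.fix]
  have e2 : L.act (f a) p = p := L.mem_St.1 (hA (hfA a haA))
  have e3 : L.act (f b) (o + c * q) = o + c * q := by rw [h4', hb.fix]
  have e4 : L.act (f b) q = q := L.mem_St.1 (hB (hfB b hbB))
  have f1 : L.Refl p (f a) := refl_of_fix (by rw [h1']; exact ha.1) e2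
  have f2 : L.Refl q (f b) := refl_of_fix (by rw [h1']; exact hb.1) e4
  have g1 : o + c * p = p := f1.fix_iff.1 e1
  have g2 : o + c * q = q := f2.fix_iff.1 e3
  have g3 : (c - 1) * (p - q) = 0 := by linarith
  have g4 : c = 1 := by
    rcases mul_eq_zero.1 g3 with h | h
    · linarith
    · exact absurd (by linarith) hpq
  have g5 : o = 0 := by rw [g4] at g1; linarith
  have hτ : L.τ (f g) = L.τ g := by
    rcases L.ε_cases g with h | h
    · rw [h2' g h, g4, one_mul]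
    · rw [h3' g h, g4, g5]; ring
  rw [mem_N_iff_act]
  intro n
  have ht : ∀ m, L.act (f g) m = L.act g m := by
    intro m
    have := h4' g m
    rw [g4, g5] at this
    simpa using this
  rw [L.act_mul, ht, L.act_act_inv]

/-- an element which commutes with everything modulo the kernel is in the kernel -/
theorem central_N {k : J} (h : ∀ g, k * g * k⁻¹ * g⁻¹ ∈ L.N) : k ∈ L.N := by
  rw [mem_N_iff_act]
  intro q
  obtain ⟨r, hr⟩ := L.exists_refl q
  have h1 := (L.mem_N_iff_act.1 (h r)) (L.act r (L.act k q))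
  rw [L.act_mul, L.act_mul, L.act_mul, L.act_inv_act, L.act_inv_act, hr.fix] at h1
  -- `h1 : act k q = act r (act k q)`
  exact hr.fix_iff.1 h1.symm

/-- finite subgroups which do not fix a common place: two of them are mirrored at different places -/
theorem exists_two {ι : Type} (A : ι → Subgroup J) (hfin : ∀ i, Finite ↥(A i))
    (hno : ¬ ∃ p, ∀ i, A i ≤ L.St p) :
    ∃ i j p q, A i ≤ L.St p ∧ A j ≤ L.St q ∧ L.Mir (A i) ∧ L.Mir (A j) ∧ p ≠ q := by
  choose P hP using fun i => L.exists_place (A i) (hfin i)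
  by_contra hcon
  push Not at hcon
  apply hno
  by_cases h : ∃ i, L.Mir (A i)
  · obtain ⟨i, hi⟩ := h
    refine ⟨P i, fun j => ?_⟩
    rcases L.le_N_or_mir (A j) (hfin j) with hj | hj
    · exact hj.trans (L.N_le_St _)
    · rw [hcon i j (P i) (P j) (hP i) (hP j) hi hj]
      exact hP j
  · push Not at h
    refine ⟨0, fun j => ?_⟩
    rcases L.le_N_or_mir (A j) (hfin j) with hj | hj
    · exact hj.trans (L.N_le_St _)
    · exact absurd hj (h j)

end DL

/-! ### thin steps -/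

theorem NNn_iff {H : Type} [Group H] {A : Subgroup H} (L : DL ↥A) {g : H} (hg : g ∈ A) :
    NNn A g ↔ (⟨g, hg⟩ : ↥A) ∈ L.N := by
  unfold NNn
  rw [rev_iff L hg, L.mem_N]
  have h1 : IO g ↔ IO (⟨g, hg⟩ : ↥A) := io_coe (J := A) (g := ⟨g, hg⟩)
  rw [h1, L.io_iff]
  constructor
  · rintro ⟨-, h2, h3⟩
    have h4 := (L.ε_cases ⟨g, hg⟩).resolve_right h2
    refine ⟨h4, ?_⟩
    by_contra h5
    exact h3 ⟨h4, h5⟩
  · rintro ⟨h2, h3⟩
    refine ⟨hg, ?_, fun h => h.2 h3⟩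
    rw [h2]
    exact DL.ne_neg_one

namespace T5

variable {H V X : Type} [Group H] [MulAction H V] [MulAction H X] {S : T5 H V X}

theorem swap_w {g : H} (hu : g • S.u = S.u) (hw : g • S.w ≠ S.w) : g • S.w = S.w' := by
  have h1 : S.T.Adj S.u (g • S.w) := by
    have := S.act.adj_smul g _ _ S.adj.symm
    rwa [hu] at this
  exact ((S.only _).1 h1).resolve_left hw

theorem swap_w' {g : H} (hu : g • S.u = S.u) (hw : g • S.w ≠ S.w) : g • S.w' = S.w := by
  have h1 : S.T.Adj S.u (g • S.w') := by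
    have := S.act.adj_smul g _ _ (adj' (S := S)).symm
    rwa [hu] at this
  rcases (S.only _).1 h1 with h | h
  · exact h
  · exfalso
    apply S.ne
    apply smul_left_cancel g
    rw [swap_w hu hw, h]

theorem binv_w : S.b⁻¹ • S.w = S.w' := by
  rw [inv_smul_eq_iff, b_w']

theorem b_ne : S.b • S.w ≠ S.w := by
  rw [S.bw]
  exact S.ne.symm

theorem b2_w {g : H} (hu : g • S.u = S.u) (hw : g • S.w ≠ S.w) : (g * S.b⁻¹) • S.w = S.w := by
  rw [mul_smul, binv_w, swap_w' hu hw]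

/-- conjugation by `b` -/
def cb (S : T5 H V X) : ↥S.JJ ≃* ↥S.JJ where
  toFun g := ⟨S.b * g.1 * S.b⁻¹, conj_JJ b_u g.2⟩
  invFun g := ⟨S.b⁻¹ * g.1 * S.b, by
    have h := conj_JJ (S := S) (u_inv b_u) g.2
    rwa [inv_inv] at h⟩
  left_inv g := Subtype.ext (by
    show S.b⁻¹ * (S.b * g.1 * S.b⁻¹) * S.b = g.1
    group)
  right_inv g := Subtype.ext (by
    show S.b * (S.b⁻¹ * g.1 * S.b) * S.b⁻¹ = g.1
    group)
  map_mul' g h := Subtype.ext (by
    show S.b * (g.1 * h.1) * S.b⁻¹ = S.b * g.1 * S.b⁻¹ * (S.b * h.1 * S.b⁻¹)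
    group)

private theorem cb_sJ {x : V} (hx : S.b • x = x) : ∀ g ∈ sJ S x, S.cb g ∈ sJ S x := by
  intro g hg
  have hg' : g.1 • x = x := hg
  show (S.b * g.1 * S.b⁻¹) • x = x
  have hx' : S.b⁻¹ • x = x := by rw [inv_smul_eq_iff, hx]
  rw [mul_smul, mul_smul, hx', hg', hx]

/-- TYPE (ii): `b` acts trivially on the line of the edge group -/
theorem cb_N (g : ↥S.JJ) : S.cb g * g⁻¹ ∈ S.LJ.N := by
  let A : Fin 3 → Subgroup ↥S.JJ := ![sJ S S.z1, sJ S S.z2, sJ S S.v]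
  have hbA : ∀ i, ∀ g ∈ A i, S.cb g ∈ A i := by
    intro i
    fin_cases i
    · exact cb_sJ S.bz1
    · exact cb_sJ b_z2
    · exact cb_sJ S.bv
  obtain ⟨i, j, p, q, h1, h2, h3, h4, h5⟩ := S.LJ.exists_two A (by
    intro i
    fin_cases i
    · exact sJ_finite fin_z1
    · exact sJ_finite fin_z2
    · exact sJ_finite fin_v) (by
    rintro ⟨p, hp⟩
    exact no_place p (fun g h => hp 0 h) (fun g h => hp 1 h) (fun g h => hp 2 h))
  exact S.LJ.conj_N S.cb (hbA i) (hbA j) h1 h2 h3 h4 h5 g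

theorem bb_JJ : S.b * S.b ∈ S.JJ := by
  refine mem_JJ.2 ⟨?_, ?_⟩
  · rw [mul_smul, S.bw, b_w']
  · rw [mul_smul, b_u, b_u]

theorem bb_N : (⟨S.b * S.b, bb_JJ⟩ : ↥S.JJ) ∈ S.LJ.N := by
  apply S.LJ.central_N
  intro g
  have h1 := S.LJ.N.mul_mem (cb_N (S := S) (S.cb g)) (cb_N (S := S) g)
  have e : S.cb (S.cb g) * (S.cb g)⁻¹ * (S.cb g * g⁻¹) =
      (⟨S.b * S.b, bb_JJ⟩ : ↥S.JJ) * g * (⟨S.b * S.b, bb_JJ⟩ : ↥S.JJ)⁻¹ * g⁻¹ := by
    have e1 : S.cb (S.cb g) = (⟨S.b * S.b, bb_JJ⟩ : ↥S.JJ) * g * (⟨S.b * S.b, bb_JJ⟩ : ↥S.JJ)⁻¹ :=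
      Subtype.ext (by
        show S.b * (S.b * g.1 * S.b⁻¹) * S.b⁻¹ = S.b * S.b * g.1 * (S.b * S.b)⁻¹
        group)
    rw [e1]
    group
  rwa [e] at h1

/-- EXTENSION: characters of the stabiliser of `w` which kill the kernel of the edge group extend,
with any prescribed value at `b` -/
theorem ext_N (f : H2m ↥(stabilizer H S.w))
    (hf : ∀ (g : H) (hg : g • S.w = S.w), NNn S.JJ g → f (Additive.ofMul ⟨g, hg⟩) = 0)
    (m : ZMod 2) :
    ∃ φ : H2m H, res2 (stabilizer H S.w) φ = f ∧ φ (Additive.ofMul S.b) = m := by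
  have hN : ∀ g : ↥S.JJ, g ∈ S.LJ.N → exm f g.1 = 0 := by
    intro g hg
    have hw : g.1 • S.w = S.w := g.2.1
    have h1 : g.1 ∈ stabilizer H S.w := hw
    rw [exm_of f h1]
    exact hf g.1 hw ((NNn_iff S.LJ g.2).2 hg)
  obtain ⟨φ, h1, h2⟩ := exists_homM_b S.act.tree S.act.adj_smul (w := S.w) (u := S.u) (by
    intro x y e
    rcases S.bip x y e with ⟨h, h1, h2⟩ | ⟨h, h1, h2⟩
    · exact ⟨h, Or.inl ⟨h1, h2⟩⟩
    · exact ⟨h, Or.inr ⟨h2, h1⟩⟩) S.adj S.wu b_u b_ne (fun g h1 h2 => b2_w h1 h2) f (by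
    intro j h1 h2
    have hj : j ∈ S.JJ := ⟨h1, h2⟩
    have h3 := hN _ (cb_N (S := S) ⟨j, hj⟩)
    have e : S.b * j * S.b⁻¹ = (S.b * j * S.b⁻¹ * j⁻¹) * j := by group
    have h4 : (S.b * j * S.b⁻¹ * j⁻¹) ∈ stabilizer H S.w :=
      (S.cb ⟨j, hj⟩ * (⟨j, hj⟩ : ↥S.JJ)⁻¹).2.1
    rw [e, exm_mul f h4 h1]
    have h5 : exm f (S.b * j * S.b⁻¹ * j⁻¹) = 0 := h3
    rw [h5, zero_add]) m (by
    have h3 := hN _ (bb_N (S := S))
    have h5 : exm f (S.b * S.b) = 0 := h3
    rw [h5]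
    exact (CharTwo.add_self_eq_zero m).symm)
  exact ⟨φ, h1, h2⟩

/-- the character `H → U / J` -/
theorem exists_chi (S : T5 H V X) : ∃ χ : H2m H, χ ≠ 0 ∧
    (∀ a : H, a • S.w = S.w → χ (Additive.ofMul a) = 0) ∧ χ (Additive.ofMul S.b) = 1 := by
  obtain ⟨χ, h1, h2⟩ := exists_chiUM (M := ZMod 2) S.act.tree S.act.adj_smul (w := S.w)
    (u := S.u) (by
    intro x y e
    rcases S.bip x y e with ⟨h, h1, h2⟩ | ⟨h, h1, h2⟩
    · exact ⟨h, Or.inl ⟨h1, h2⟩⟩
    · exact ⟨h, Or.inr ⟨h2, h1⟩⟩) S.adj S.wu 1 (by decide) (by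
    intro a c ha hc h1 h2
    rw [mul_smul, swap_w hc h2, swap_w' ha h1])
  have h3 : χ (Additive.ofMul S.b) = 1 := h2 S.b b_u b_ne
  refine ⟨χ, ?_, h1, h3⟩
  rintro rfl
  have h4 : (0 : ZMod 2) = 1 := h3
  exact absurd h4 (by decide)

/-- THE DIMENSION COUNT: `Lw` a space of characters of the stabiliser of `w` which kill the kernel of
the edge group, `P` a space of characters of `H` which contains all characters with restriction in
`Lw` -/
theorem dim_lt (S : T5 H V X) (Lw : Submodule (ZMod 2) (H2m ↥(stabilizer H S.w)))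
    (P : Submodule (ZMod 2) (H2m H))
    (hL : ∀ f ∈ Lw, ∀ (g : H) (hg : g • S.w = S.w), NNn S.JJ g → f (Additive.ofMul ⟨g, hg⟩) = 0)
    (hP : ∀ φ : H2m H, res2 (stabilizer H S.w) φ ∈ Lw → φ ∈ P)
    (hfd : FiniteDimensional (ZMod 2) ↥P) :
    FiniteDimensional (ZMod 2) ↥Lw ∧ Module.finrank (ZMod 2) ↥Lw + 1 ≤ Module.finrank (ZMod 2) ↥P := by
  obtain ⟨χ, h0, h1, -⟩ := exists_chi S
  exact fin_law Lw P hP (fun f hf => by
    obtain ⟨φ, h, -⟩ := ext_N (S := S) f (hL f hf) 0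
    exact ⟨φ, h⟩) hfd h0 h1

end T5

end Pool.Agent.DI
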