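import Pool.Agent.DI19.ExtU
import Pool.Agent.DI.C5PE
import Pool.Agent.DI.P5Def
import Pool.Agent.DI.WallS

/-!
# `p_5` drops at a thin step (owner: helper19)

`GX.mem_P5_iff`: the space `K.P5` in the form of `C5PE`. `SyQ.WT.p5_dim`: the dimension count of a thin
step for any complex `K'` of the stabiliser of the bad vertex `w` (to be used for the folded slice):
`K'.p5 + 1 ≤ S.K.p5`, from [hL] `K'.P5` kills the kernel of the edge group, [hP] characters whose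
restriction is in `K'.P5` are in `S.K.P5`. `GX.kill_of_sink`: [hL] from a sink in a cell whose stabiliser is
the edge group. `SyQ.WT.p5_lt`: the raw slice.
-/

namespace Pool.Agent.DI

open MulAction
open Pool.Agent.SAF (InC orbs FinOrb TAct Conv exists_next)
open Pool.Agent.SAG (IO Zt)
open Pool.Agent.BT (bey mst Hyp)

section

variable {H V : Type} [Group H] [MulAction H V]

/-- the kernel of a two-ended stabiliser, two forms -/
theorem nnn_ny {y : V} (hC : InC ↥(stabilizer H y)) (hI : Infinite ↥(stabilizer H y)) {g : H} :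
    NNn (stabilizer H y) g ↔ NY y g := by
  by_cases hz : Zt ↥(stabilizer H y)
  · rw [ny_zt hz hI]
    constructor
    · rintro ⟨h1, -, h2⟩
      exact ⟨h1, h2⟩
    · rintro ⟨h1, h2⟩
      exact ⟨h1, fun hr => (DT.of_rev hC hr).2.2 hz, h2⟩
  · have hd : DT (stabilizer H y) := ⟨hC, hI, hz⟩
    obtain ⟨L⟩ := hd.nonempty
    constructor
    · intro h
      exact (ny_dl L h.1).2 ((NNn_iff L h.1).1 h)
    · intro h
      exact (NNn_iff L h.fix).2 ((ny_dl L h.fix).1 h)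

/-- a character as a multiplicative homomorphism -/
def mul2 (φ : H2m H) : H →* Multiplicative (ZMod 2) where
  toFun g := Multiplicative.ofAdd (φ (Additive.ofMul g))
  map_one' := by rw [ofMul_one, map_zero]; rfl
  map_mul' a b := by rw [ofMul_mul, map_add]; rfl

theorem mul2_eq_one {φ : H2m H} {g : H} : mul2 φ g = 1 ↔ φ (Additive.ofMul g) = 0 := Iff.rfl

namespace GX

variable {K : GX H V}

theorem lkc_ij {s n m : V} : LkC K.ar K.Cor s n m ↔ K.IJ s n m := by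
  constructor
  · intro h
    exact Relation.EqvGen.mono (fun a b h => ⟨h.2.2, h.1, h.2.1⟩) _ _ h
  · intro h
    exact Relation.EqvGen.mono (fun a b h => ⟨h.2.1, h.2.2, h.1⟩) _ _ h

/-- `P_5`, two forms -/
theorem mem_P5_iff {φ : H2m H} : φ ∈ K.P5 ↔ Pool.Agent.DI.P5 H K.ar K.Cor (mul2 φ) := by
  constructor
  · rintro ⟨h1, h2⟩
    refine ⟨fun y hy hC hI hc g hg => ?_, fun s n g ha hn hc hg hp hl => ?_⟩
    · obtain ⟨n, m, hc⟩ := hc
      rw [mul2_eq_one]
      exact h1 y hy ⟨n, (EC_iff.2 ⟨m, hc⟩).symm⟩ g ((nnn_ny hC hI).1 hg)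
    · rw [mul2_eq_one]
      exact h2 s n g ⟨ha, hn, EC_iff.2 hc, hg, lkc_ij.1 hl⟩ hp
  · rintro ⟨h1, h2⟩
    refine ⟨fun y hy hc a ha => ?_, fun y n a ha hp => ?_⟩
    · obtain ⟨n, hn⟩ := hc
      obtain ⟨m, hm⟩ := EC_iff.1 hn.symm
      have hI : Infinite ↥(stabilizer H y) := by
        by_contra hcon
        rw [not_infinite_iff_finite] at hcon
        exact ny_fin hcon ha
      exact h1 y hy (K.stab y) hI ⟨n, m, hm⟩ a ((nnn_ny (K.stab y) hI).2 ha)
    · obtain ⟨k1, k2, k3, k4, k5⟩ := ha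
      exact h2 y n a k1 k2 (EC_iff.1 k3) k4 hp (lkc_ij.2 k5)

/-- a sink in a cell whose stabiliser is (in the subgroup `A`) a group `J` of type `D_inf`: its kernel
is killed -/
theorem kill_of_sink {H V' : Type} [Group H] {A : Subgroup H} [MulAction ↥A V'] {K' : GX ↥A V'}
    {J : Subgroup H} (hJ : DT J) {t : V'} (ht : K'.Snk t) (hv : K'.VC t)
    (hst : ∀ x : H, x ∈ J ↔ ∃ hx : x ∈ A, (⟨x, hx⟩ : ↥A) ∈ stabilizer ↥A t) {f : H2m ↥A}
    (hf : f ∈ K'.P5) (g : H) (hg : g ∈ A) (hn : NNn J g) : f (Additive.ofMul ⟨g, hg⟩) = 0 := by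
  have hd : DT (stabilizer ↥A t) := dt_sub hst hJ
  exact hf.1 t ht hv ⟨g, hg⟩ ((nnn_ny hd.1 hd.2.1).1 (nnn_sub hst (g := ⟨g, hg⟩) hn))

end GX

end

namespace SyQ

variable {H V : Type} [Group H] [MulAction H V] {S : SyQ H V}
variable {w u w' : S.X} {v z1 z2 : V} {r : H}

/-- THE DIMENSION COUNT OF A THIN STEP -/
theorem WT.p5_dim (h : S.WT w u w' v z1 z2 r) {V' : Type} [MulAction ↥(stabilizer H w) V']
    (K' : GX ↥(stabilizer H w) V')
    (hL : ∀ f ∈ K'.P5, ∀ (g : H) (hg : g ∈ stabilizer H w),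
      NNn (stabilizer H w ⊓ stabilizer H u) g → f (Additive.ofMul ⟨g, hg⟩) = 0)
    (hP : ∀ φ : H2m H, res2 (stabilizer H w) φ ∈ K'.P5 → φ ∈ S.K.P5) :
    K'.p5 + 1 ≤ S.K.p5 :=
  (T5.dim_lt h.t5 K'.P5 S.K.P5 hL hP S.K.finite_P5).2

/-- the same with a sink `t` in a cell whose stabiliser is the edge group -/
theorem WT.p5_dim' (h : S.WT w u w' v z1 z2 r) {V' : Type} [MulAction ↥(stabilizer H w) V']
    (K' : GX ↥(stabilizer H w) V') {t : V'} (ht : K'.Snk t) (hv : K'.VC t)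
    (hst : ∀ x : ↥(stabilizer H w), x • t = t ↔ x.1 • u = u)
    (hP : ∀ φ : H2m H, res2 (stabilizer H w) φ ∈ K'.P5 → φ ∈ S.K.P5) :
    K'.p5 + 1 ≤ S.K.p5 :=
  h.p5_dim K' (fun f hf g hg hn => GX.kill_of_sink h.dt ht hv (fun x => by
    constructor
    · rintro ⟨h1, h2⟩
      exact ⟨h1, (hst ⟨x, h1⟩).2 h2⟩
    · rintro ⟨h1, h2⟩
      exact ⟨h1, (hst ⟨x, h1⟩).1 h2⟩) hf g hg hn) hP

end SyQ

end Pool.Agent.DI
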