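import Pool.Agent.DI.FCr
import Pool.Agent.DI.P5Def

/-!
# `P_5` under the neutral fold (owner: helper19)

`M : FM C C1` with `M.Flip` (48: the neutral fold, raw slice → folded slice). `FM.Flip.P5_le`: a
character of the quotient which kills the stabilisers of the reversed arrows is a character of the
complex, if the sinks and the edges of the kept pieces are seen.
-/

namespace Pool.Agent.DI

open MulAction
open Pool.Agent.SAF (InC orbs FinOrb)
open Pool.Agent.SAG (IO Zt)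

namespace FM

variable {H V F V1 F1 : Type} [Group H] [MulAction H V] [MulAction H F] [MulAction H V1]
    [MulAction H F1] {K : GX H V} {K1 : GX H V1} {C : FC K F} {C1 : FC K1 F1} {M : FM C C1}

/-- equal up to an element of the kernel of `φ` fixing the vertex and its poles -/
def Qk (M : FM C C1) (φ : H2m H) (y a b : V) : Prop := ∃ s : H, s • y = y ∧
  (∀ c, K.ar y c → s • c = c) ∧ φ (Additive.ofMul s) = 0 ∧ C1.IJ (M.f y) (M.f (s • a)) (M.f b)

theorem Qk.rfl' {φ : H2m H} {y a : V} : M.Qk φ y a a :=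
  ⟨1, one_smul _ _, fun c _ => one_smul _ c, by rw [ofMul_one, map_zero], by
    rw [one_smul]
    exact Relation.EqvGen.refl _⟩

theorem Qk.symm {φ : H2m H} {y a b : V} (h : M.Qk φ y a b) : M.Qk φ y b a := by
  obtain ⟨s, h1, h2, h4, h3⟩ := h
  refine ⟨s⁻¹, ?_, ?_, ?_, ?_⟩
  · rw [inv_smul_eq_iff, h1]
  · intro c hc
    rw [inv_smul_eq_iff, h2 c hc]
  · rw [h2_inv, h4, neg_zero]
  · have := (FC.IJ.smul s⁻¹ h3).symm'
    rw [← M.f_smul, ← M.f_smul, ← M.f_smul, inv_smul_smul] at this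
    rwa [show s⁻¹ • y = y by rw [inv_smul_eq_iff, h1]] at this

theorem Qk.trans {φ : H2m H} {y a b c : V} (h : M.Qk φ y a b) (h' : M.Qk φ y b c) :
    M.Qk φ y a c := by
  obtain ⟨s, h1, h2, h4, h3⟩ := h
  obtain ⟨t, k1, k2, k4, k3⟩ := h'
  refine ⟨t * s, ?_, ?_, ?_, ?_⟩
  · rw [mul_smul, h1, k1]
  · intro c hc
    rw [mul_smul, h2 c hc, k2 c hc]
  · rw [h2_mul, h4, k4, add_zero]
  · have := FC.IJ.smul t h3
    rw [← M.f_smul, ← M.f_smul, ← M.f_smul, k1, ← mul_smul] at this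
    exact this.trans _ _ _ k3

theorem Qk.of_ij {φ : H2m H} {y a b : V} (h : C1.IJ (M.f y) (M.f a) (M.f b)) : M.Qk φ y a b :=
  ⟨1, one_smul _ _, fun c _ => one_smul _ c, by rw [ofMul_one, map_zero], by
    rw [one_smul]
    exact h⟩

namespace Flip

variable (R : M.Flip) {φ : H2m H}
  (hF : ∀ k p, M.Fl k p → ∀ s : H, s • k = k → s • p = p → φ (Additive.ofMul s) = 0)
include R hF

/-- two ends at the same node -/
theorem qat_same {y a b b' : V} (h : At M y a b) (h' : At M y a b') : M.Qk φ y b b' := by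
  rcases h.2.2 with ⟨k, rfl⟩ | ⟨k, e, k1, k2, k3, rfl⟩ <;>
  rcases h'.2.2 with ⟨l, rfl⟩ | ⟨l, e', l1, l2, l3, rfl⟩
  · exact Qk.rfl'
  · exact absurd l k
  · exact absurd k l
  · obtain ⟨s, rfl⟩ := R.ku e e' k1 l1 (by rw [k2, k3]; exact k) (by rw [k2, l2])
      (by rw [k3, l3])
    rw [C.x_smul, k2] at l2
    rw [C.y_smul, k3] at l3
    refine ⟨s, l3, R.fix k l2 l3, hF _ _ k s l2 l3, ?_⟩
    rw [C.z_smul]
    exact Relation.EqvGen.refl _

theorem qat_ic {y a b a' b' : V} (hT : ¬ M.Tp y) (h : C.IC y a b) (ha : At M y a a')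
    (hb : At M y b b') : M.Qk φ y a' b' := by
  obtain ⟨⟨e, h1, h2, h3⟩, h4, h5⟩ := id h
  by_cases fa : M.Fl a y
  · -- the corner is kept
    have hk := R.kept fa h1 h2 h3 h5
    by_cases fb : M.Fl b y
    · -- both are dead
      exfalso
      have hd : Dd M y a := ⟨fa, e, hk, h1, h2, Or.inr (by rw [h3, h2]; exact fb)⟩
      rcases ha.2.2 with ⟨k, -⟩ | ⟨-, e', k1, k2, k3, k4⟩
      · exact k fa
      · rcases Dd.all R hd k1 k2 k3 with l | l
        · rw [k3, k4] at l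
          exact FC.not_both l ha.1
        · rw [k3, k4] at l
          exact ha.2.1 l
    · -- `b' = b` and `b` is attached to `a`
      rcases hb.2.2 with ⟨-, rfl⟩ | ⟨k, -⟩
      · exact R.qat_same hF ha ⟨h5, fb, Or.inr ⟨fa, e, hk, h1, h2, h3⟩⟩
      · exact absurd k fb
  · by_cases fb : M.Fl b y
    · have hk := R.kept fb (e := C.v e) (by rw [C.xv, h3]) (by rw [C.yv, h2]) (by rw [C.zv, h1]) h4
      rcases ha.2.2 with ⟨-, rfl⟩ | ⟨k, -⟩
      · refine R.qat_same hF ⟨h4, fa, Or.inr ⟨fb, C.v e, hk, ?_, ?_, ?_⟩⟩ hb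
        · rw [C.xv, h3]
        · rw [C.yv, h2]
        · rw [C.zv, h1]
      · exact absurd k fa
    · rcases ha.2.2 with ⟨-, rfl⟩ | ⟨k, -⟩
      · rcases hb.2.2 with ⟨-, rfl⟩ | ⟨k, -⟩
        · apply Qk.of_ij
          by_cases hk : M.Kp e
          · obtain ⟨g, rfl⟩ := hk
            have k1 : K1.ar (C1.x g) (C1.y g) := by
              rcases M.ar_x_or g (by rw [h1, h2]; exact h4) with k | k
              · exact k
              · rw [h1, h2] at k
                exact absurd k fa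
            have k2 : K1.ar (C1.z g) (C1.y g) := by
              rcases M.ar_z_or' g (by rw [h3, h2]; exact h5) with k | k
              · exact k
              · rw [h3, h2] at k
                exact absurd k fb
            rw [← h1, ← h2, ← h3, M.x_ph, M.y_ph, M.z_ph]
            exact Relation.EqvGen.rel _ _ ⟨FC.co g, k1, k2⟩
          · have := R.di e ⟨by rw [h1, h2]; exact h4, by rw [h3, h2]; exact h5⟩ hk
              (by rw [h2]; exact hT)
            rwa [h1, h2, h3] at this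
        · exact absurd k fb
      · exact absurd k fa

/-- the pieces of the quotient -/
theorem qat_ij {y a b a' b' : V} (hT : ¬ M.Tp y) (h : C.IJ y a b) (hya : K.ar a y)
    (ha : At M y a a') (hb : At M y b b') : M.Qk φ y a' b' := by
  induction h generalizing a' b' with
  | rel a b h => exact R.qat_ic hF hT h ha hb
  | refl a => exact R.qat_same hF ha hb
  | symm a b h ih => exact (ih ((FC.IJ.ar h).2 hya) hb ha).symm
  | trans a b c hab hbc ih1 ih2 =>
    have hyb : K.ar b y := (FC.IJ.ar hab).1 hya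
    have hnd : ¬ Dd M y b := fun k => R.not_dead_of_at ha ((R.dead_ij hab).2 k)
    obtain ⟨d, hd⟩ := R.exists_at hyb hnd
    exact (ih1 hya ha hd).trans (ih2 hyb hd hb)

/-- nodes which are not reversed -/
theorem qij {y a b : V} (hT : ¬ M.Tp y) (h : C.IJ y a b) (hya : K.ar a y) (ha : ¬ M.Fl a y)
    (hb : ¬ M.Fl b y) : M.Qk φ y a b :=
  R.qat_ij hF hT h hya ⟨hya, ha, Or.inl ⟨ha, rfl⟩⟩
    ⟨(FC.IJ.ar h).1 hya, hb, Or.inl ⟨hb, rfl⟩⟩

/-- the kept flags at the dead nodes of one piece, up to elements killed by `φ` -/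
theorem dead_flags' {y a b : V} (h : C.IJ y a b) (ha : Dd M y a) {e e' : F} (he : M.Kp e)
    (he' : M.Kp e') (h1 : C.x e = a) (h2 : C.y e = y) (h1' : C.x e' = b) (h2' : C.y e' = y) :
    (∃ g : H, g • y = y ∧ (∀ c, K.ar y c → g • c = c) ∧ φ (Additive.ofMul g) = 0 ∧ g • e = e') ∨
    (∃ g : H, g • y = y ∧ (∀ c, K.ar y c → g • c = c) ∧ φ (Additive.ofMul g) = 0 ∧
      g • e = C.v e') := by
  have ku : ∀ {b : V} {d d' : F}, M.Fl b y → M.Kp d → M.Kp d' → C.x d = b → C.y d = y →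
      C.x d' = b → C.y d' = y → ∃ g : H, g • y = y ∧ (∀ c, K.ar y c → g • c = c) ∧
        φ (Additive.ofMul g) = 0 ∧ g • d = d' := by
    intro b d d' hb hd hd' k1 k2 k3 k4
    obtain ⟨g, hg⟩ := R.ku d d' hd hd' (by rw [k1, k2]; exact hb) (by rw [k1, k3])
      (by rw [k2, k4])
    have e1 : g • b = b := by
      have := congrArg C.x hg
      rw [C.x_smul, k1, k3] at this
      exact this
    have e2 : g • y = y := by
      have := congrArg C.y hg
      rw [C.y_smul, k2, k4] at this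
      exact this
    exact ⟨g, e2, R.fix hb e1 e2, hF _ _ hb g e1 e2, hg⟩
  induction h generalizing e e' with
  | rel a b h =>
    obtain ⟨⟨d, k1, k2, k3⟩, k4, k5⟩ := h
    have hd := R.kept ha.1 k1 k2 k3 k5
    right
    obtain ⟨g, g1, g2, g3, hg⟩ := ku ha.1 he hd h1 h2 k1 k2
    have hb : Dd M y b := R.dead_ic ⟨⟨d, k1, k2, k3⟩, k4, k5⟩ ha
    obtain ⟨g', g1', g2', g3', hg'⟩ := ku hb.1 hd.v he' (by rw [C.xv, k3]) (by rw [C.yv, k2])
      h1' h2'
    refine ⟨g' * g, by rw [mul_smul, g1, g1'], fun c hc => by rw [mul_smul, g2 c hc, g2' c hc], by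
      rw [h2_mul, g3, g3', add_zero], ?_⟩
    rw [mul_smul, hg, ← hg', C.v_smul, C.vv]
  | refl a =>
    left
    exact ku ha.1 he he' h1 h2 h1' h2'
  | symm a b h ih =>
    have hb : Dd M y a := (R.dead_ij h).2 ha
    rcases ih hb he' he h1' h2' h1 h2 with ⟨g, g1, g2, g3, k2⟩ | ⟨g, g1, g2, g3, k2⟩
    · left
      exact ⟨g⁻¹, by rw [inv_smul_eq_iff, g1], fun c hc => by rw [inv_smul_eq_iff, g2 c hc], by
        rw [h2_inv, g3, neg_zero], by rw [← k2, inv_smul_smul]⟩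
    · right
      refine ⟨g⁻¹, by rw [inv_smul_eq_iff, g1], fun c hc => by rw [inv_smul_eq_iff, g2 c hc], by
        rw [h2_inv, g3, neg_zero], ?_⟩
      have : e = C.v (g • e') := by rw [k2, C.vv]
      rw [this, ← C.v_smul, inv_smul_smul]
  | trans a b c hab hbc ih1 ih2 =>
    have hb : Dd M y b := (R.dead_ij hab).1 ha
    obtain ⟨d, hd, d1, d2⟩ := R.kex b y hb.1
    rcases ih1 ha he hd h1 h2 d1 d2 with ⟨g, g1, g2, g3, k2⟩ | ⟨g, g1, g2, g3, k2⟩ <;>
    rcases ih2 hb hd he' d1 d2 h1' h2' with ⟨g', g1', g2', g3', l2⟩ | ⟨g', g1', g2', g3', l2⟩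
    · left
      exact ⟨g' * g, by rw [mul_smul, g1, g1'], fun c hc => by rw [mul_smul, g2 c hc, g2' c hc], by
        rw [h2_mul, g3, g3', add_zero], by rw [mul_smul, k2, l2]⟩
    · right
      exact ⟨g' * g, by rw [mul_smul, g1, g1'], fun c hc => by rw [mul_smul, g2 c hc, g2' c hc], by
        rw [h2_mul, g3, g3', add_zero], by rw [mul_smul, k2, l2]⟩
    · right
      exact ⟨g' * g, by rw [mul_smul, g1, g1'], fun c hc => by rw [mul_smul, g2 c hc, g2' c hc], by
        rw [h2_mul, g3, g3', add_zero], by rw [mul_smul, k2, ← C.v_smul, l2]⟩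
    · left
      exact ⟨g' * g, by rw [mul_smul, g1, g1'], fun c hc => by rw [mul_smul, g2 c hc, g2' c hc], by
        rw [h2_mul, g3, g3', add_zero], by rw [mul_smul, k2, ← C.v_smul, l2, C.vv]⟩

/-- DEAD PIECES: an element which keeps the piece of a dead node and does not turn over a kept corner is
killed -/
theorem dead_kill' {y a : V} (hd : Dd M y a) {g : H} (hg : g • y = y)
    (h : C.IJ y a (g • a))
    (hs : ∀ e, M.Kp e → C.x e = a → C.y e = y → ∀ s : H, s • y = y →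
      (∀ c, K.ar y c → s • c = c) → φ (Additive.ofMul s) = 0 → s • e = C.v (g • e) → False) :
    φ (Additive.ofMul g) = 0 := by
  obtain ⟨e, he, hx, hy⟩ := R.kex a y hd.1
  rcases R.dead_flags' hF h hd he (he.smul g) hx hy (by rw [C.x_smul, hx])
    (by rw [C.y_smul, hy, hg]) with ⟨s, s1, s2, s3, s4⟩ | ⟨s, s1, s2, s3, s4⟩
  · have e0 : (s⁻¹ * g) • e = e := by rw [mul_smul, ← s4, inv_smul_smul]
    have e1 : (s⁻¹ * g) • a = a := by
      have := congrArg C.x e0
      rwa [C.x_smul, hx] at this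
    have e2 : (s⁻¹ * g) • y = y := by
      have := congrArg C.y e0
      rwa [C.y_smul, hy] at this
    have e3 := hF _ _ hd.1 (s⁻¹ * g) e1 e2
    rw [h2_mul, h2_inv, s3, neg_zero, zero_add] at e3
    exact e3
  · exact (hs e he hx hy s s1 s2 s3 s4).elim

omit hF in
/-- an element which fixes the vertex and its poles does not turn over a kept corner at a dead node -/
theorem no_turn {y a : V} (hd : Dd M y a) {h : H} (hp : ∀ c, K.ar y c → h • c = c) {e : F}
    (he : M.Kp e) (hx : C.x e = a) (k : h • e = C.v e) : False := by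
  obtain ⟨o, ho, fo, -⟩ := R.pol hd.1
  have e1 : h • a = C.z e := by
    have := congrArg C.x k
    rwa [C.x_smul, hx, C.xv] at this
  have e2 : M.f (C.z e) = M.f a := by
    rw [← e1, M.f_smul, ← fo, ← M.f_smul, hp o ho]
  obtain ⟨g0, rfl⟩ := he
  apply R.nb g0
  rw [← M.x_ph, ← M.z_ph, hx, e2]

/-- DEAD PIECES, pure elements -/
theorem dead_kill {y a : V} (hd : Dd M y a) {g : H} (hg : g • y = y)
    (hp : ∀ c, K.ar y c → g • c = c) (h : C.IJ y a (g • a)) : φ (Additive.ofMul g) = 0 := by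
  refine R.dead_kill' hF hd hg h (fun e he hx hy s s1 s2 _ k => ?_)
  refine R.no_turn hd (h := g⁻¹ * s) (fun c hc => ?_) he hx ?_
  · rw [mul_smul, s2 c hc, inv_smul_eq_iff, hp c hc]
  · rw [mul_smul, k, ← C.v_smul, inv_smul_smul]

/-- the element of a piece, moved to the quotient -/
theorem move (hCo : ∀ a y b, C.Co a y b ↔ K.Cor a y b) (hA : ∀ n y, K.ar n y → ¬ M.Fl n y →
      K1.ar (M.f n) (M.f y))
    (hE : ∀ n y, K.ar n y → K.EC n y → (∃ b, K.ar y b) → ¬ M.Tp y → ¬ M.Fl n y →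
      K1.EC (M.f n) (M.f y)) (hIJ1 : ∀ y a b, C1.IJ y a b → K1.IJ y a b) {y n : V} {a : H}
    (hT : ¬ M.Tp y) (hd : ¬ Dd M y n) (hpg : K.PG y n a) (hIJ : C.IJ y n (a • n)) :
    ∃ (s : H) (b : V), s • y = y ∧ (∀ c, K.ar y c → s • c = c) ∧ φ (Additive.ofMul s) = 0 ∧
      K1.PG (M.f y) (M.f b) (s⁻¹ * a) := by
  obtain ⟨⟨c, hc⟩, hn, hec, hay, hij⟩ := hpg
  obtain ⟨b, hb⟩ := R.exists_at hn hd
  have hb' : At M y (a • n) (a • b) := by
    obtain ⟨k1, k2, k3⟩ := hb
    refine ⟨?_, fun k => k2 ?_, ?_⟩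
    · have := K.ar_smul a _ _ k1
      rwa [hay] at this
    · have := k.smul a⁻¹
      rwa [inv_smul_smul, show a⁻¹ • y = y by rw [inv_smul_eq_iff, hay]] at this
    · rcases k3 with ⟨k3, rfl⟩ | ⟨k3, e, e1, e2, e3, e4⟩
      · refine Or.inl ⟨fun k => k3 ?_, rfl⟩
        have := k.smul a⁻¹
        rwa [inv_smul_smul, show a⁻¹ • y = y by rw [inv_smul_eq_iff, hay]] at this
      · refine Or.inr ⟨?_, a • e, e1.smul a, by rw [C.x_smul, e2], by rw [C.y_smul, e3, hay], by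
          rw [C.z_smul, e4]⟩
        have := k3.smul a
        rwa [hay] at this
  obtain ⟨s, s1, s2, s3, s4⟩ := R.qat_ij hF hT hIJ hn hb hb'
  have hEb : K.EC b y := by
    rcases hb.2.2 with ⟨-, rfl⟩ | ⟨-, e, e1, e2, e3, e4⟩
    · exact hec
    · have h1 : C.Co b y n := ⟨C.v e, by rw [C.xv, e4], by rw [C.yv, e3], by rw [C.zv, e2]⟩
      exact GX.EC_iff.2 ⟨n, (hCo _ _ _).1 h1⟩
  refine ⟨s, b, s1, s2, s3, ⟨M.f c, hA y c hc (fun k => hT ⟨c, k⟩)⟩, hA b y hb.1 hb.2.1,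
    hE b y hb.1 hEb ⟨c, hc⟩ hT hb.2.1, ?_, ?_⟩
  · rw [← M.f_smul, mul_smul, hay, show s⁻¹ • y = y by rw [inv_smul_eq_iff, s1]]
  · have := FC.IJ.smul s⁻¹ s4
    rw [← M.f_smul, ← M.f_smul, ← M.f_smul, inv_smul_smul, ← mul_smul, M.f_smul (s⁻¹ * a),
      show s⁻¹ • y = y by rw [inv_smul_eq_iff, s1]] at this
    exact hIJ1 _ _ _ this

/-- THE SPACE `P_5` OF THE RAW SLICE AND OF THE FOLDED SLICE -/
theorem P5_le (hCo : ∀ a y b, C.Co a y b ↔ K.Cor a y b) (hIJ : ∀ y a b, K.IJ y a b → C.IJ y a b)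
    (hIJ1 : ∀ y a b, C1.IJ y a b → K1.IJ y a b)
    (hA : ∀ n y, K.ar n y → ¬ M.Fl n y → K1.ar (M.f n) (M.f y))
    (hE : ∀ n y, K.ar n y → K.EC n y → (∃ b, K.ar y b) → ¬ M.Tp y → ¬ M.Fl n y →
      K1.EC (M.f n) (M.f y))
    (hS : ∀ y, K.Snk y → K.VC y → (K1.Snk (M.f y) ∧ K1.VC (M.f y)) ∨
      ∀ a : H, NY y a → φ (Additive.ofMul a) = 0)
    (hφ : φ ∈ K1.P5) : φ ∈ K.P5 := by
  obtain ⟨h1, h2⟩ := hφ
  refine ⟨fun y hy hv a ha => ?_, fun y n a hpg hp => ?_⟩
  · rcases hS y hy hv with ⟨k1, k2⟩ | k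
    · obtain ⟨e1, e2, t, e3, e4, e5⟩ := ha
      refine h1 _ k1 k2 a ⟨by rw [← M.f_smul, e1], e2, t, by rw [← M.f_smul, e3], e4, e5⟩
    · exact k a ha
  · have hay := hpg.2.2.2.1
    by_cases hT : M.Tp y
    · obtain ⟨p, hFl⟩ := hT
      exact hF _ _ hFl a hay (hp _ hFl.1)
    · by_cases hd : Dd M y n
      · exact R.dead_kill hF hd hay hp (hIJ _ _ _ hpg.2.2.2.2)
      · obtain ⟨s, b, s1, s2, s3, s4⟩ := R.move hF hCo hA hE hIJ1 hT hd hpg (hIJ _ _ _ hpg.2.2.2.2)
        obtain ⟨c, hc⟩ := hpg.1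
        have hgc : (s⁻¹ * a) • M.f c = M.f c := by
          rw [← M.f_smul, mul_smul, hp c hc, show s⁻¹ • c = c by rw [inv_smul_eq_iff, s2 c hc]]
        have hc1 : K1.ar (M.f y) (M.f c) := hA y c hc (fun k => hT ⟨c, k⟩)
        have e := h2 _ _ _ s4 (fun B hB => by
          have hgB : K1.ar (M.f y) ((s⁻¹ * a) • B) := by
            have := K1.ar_smul (s⁻¹ * a) _ _ hB
            rwa [s4.2.2.2.1] at this
          rcases K1.two (M.f y) (M.f c) B ((s⁻¹ * a) • B) hc1 hB hgB with e | e | e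
          · rw [← e]
            exact hgc
          · exact e.symm
          · rw [← hgc] at e
            have := smul_left_cancel _ e
            rw [← this]
            exact hgc)
        rw [h2_mul, h2_inv, s3, neg_zero, zero_add] at e
        exact e

/-- THE SPACE `P_4` OF THE RAW SLICE AND OF THE FOLDED SLICE -/
theorem P4_le (hCo : ∀ a y b, C.Co a y b ↔ K.Cor a y b) (hIJ : ∀ y a b, K.IJ y a b → C.IJ y a b)
    (hIJ1 : ∀ y a b, C1.IJ y a b → K1.IJ y a b)
    (hA : ∀ n y, K.ar n y → ¬ M.Fl n y → K1.ar (M.f n) (M.f y))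
    (hE : ∀ n y, K.ar n y → K.EC n y → (∃ b, K.ar y b) → ¬ M.Tp y → ¬ M.Fl n y →
      K1.EC (M.f n) (M.f y))
    (hS : ∀ y, K.Snk y → K.VC y → (K1.Snk (M.f y) ∧ K1.VC (M.f y) ∧
        ∀ g : H, g • M.f y = M.f y → g • y = y) ∨
      ∀ a : H, a • y = y → (Zt ↥(stabilizer H y) → Infinite ↥(stabilizer H y) → ¬ IO a) →
        φ (Additive.ofMul a) = 0)
    (hT0 : ∀ y, M.Tp y → ∀ a : H, a • y = y → φ (Additive.ofMul a) = 0)
    (hN : ∀ y a, Dd M y a → ∀ e, M.Kp e → C.x e = a → C.y e = y → ∀ s : H, s • e ≠ C.v e)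
    (hφ : φ ∈ K1.P4) : φ ∈ K.P4 := by
  obtain ⟨h1, h2⟩ := hφ
  refine ⟨fun y hy hv a ha hz => ?_, fun y n a hpg => ?_⟩
  · rcases hS y hy hv with ⟨k1, k2, k3⟩ | k
    · have hst : stabilizer H (M.f y) = stabilizer H y := by
        ext g
        rw [mem_stabilizer_iff, mem_stabilizer_iff]
        exact ⟨k3 g, fun e => by rw [← M.f_smul, e]⟩
      refine h1 _ k1 k2 a (by rw [← M.f_smul, ha]) (fun z1 z2 => ?_)
      rw [hst] at z1 z2
      exact hz z1 z2
    · exact k a ha hz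
  · have hay := hpg.2.2.2.1
    by_cases hT : M.Tp y
    · exact hT0 y hT a hay
    · by_cases hd : Dd M y n
      · refine R.dead_kill' hF hd hay (hIJ _ _ _ hpg.2.2.2.2) (fun e he hx hy s _ _ _ k => ?_)
        refine hN y n hd e he hx hy (a⁻¹ * s) ?_
        rw [mul_smul, k, ← C.v_smul, inv_smul_smul]
      · obtain ⟨s, b, s1, s2, s3, s4⟩ := R.move hF hCo hA hE hIJ1 hT hd hpg (hIJ _ _ _ hpg.2.2.2.2)
        have e := h2 _ _ _ s4
        rw [h2_mul, h2_inv, s3, neg_zero, zero_add] at e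
        exact e

end Flip

end FM

end Pool.Agent.DI
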