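import Pool.Agent.SAF.Defs
import Pool.Agent.SAF.A11

/-!
# Homomorphisms to an abelian group and one-edge decompositions

`Hm H M`: homomorphisms from `H` to the additive commutative group `M` (used for `M = ZMod 2`).
`exists_homM`: the extension lemma on a tree with an invariant orientation of the edges.
`exists_homM_inv`: extension for `H = H_w *_J H_u`. `exists_homM_hnn`: extension for an HNN
decomposition. `exists_chiUM`: the character `H → H_u / J` which kills `H_w`.
-/

namespace Pool.Agent.DI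

open MulAction

/-- homomorphisms to `M` -/
abbrev Hm (H M : Type) [Group H] [AddCommGroup M] : Type := Additive H →+ M

section

variable {H M : Type} [Group H] [AddCommGroup M]

/-- the value of a homomorphism -/
def hmv (φ : Hm H M) (h : H) : M := φ (Additive.ofMul h)

theorem hmv_mul (φ : Hm H M) (a b : H) : hmv φ (a * b) = hmv φ a + hmv φ b := by
  unfold hmv
  rw [ofMul_mul, map_add]

theorem hmv_one (φ : Hm H M) : hmv φ 1 = 0 := by
  unfold hmv
  rw [ofMul_one, map_zero]

theorem hmv_inv (φ : Hm H M) (a : H) : hmv φ a⁻¹ = - hmv φ a := by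
  unfold hmv
  rw [ofMul_inv, map_neg]

theorem hmv_conj (φ : Hm H M) (a b : H) : hmv φ (a * b * a⁻¹) = hmv φ b := by
  rw [hmv_mul, hmv_mul, hmv_inv]
  abel

theorem hmv_conj' (φ : Hm H M) (a b : H) : hmv φ (a⁻¹ * b * a) = hmv φ b := by
  rw [hmv_mul, hmv_mul, hmv_inv]
  abel

theorem hmv_ext {φ ψ : Hm H M} (h : ∀ a, hmv φ a = hmv ψ a) : φ = ψ := by
  apply AddMonoidHom.ext
  intro a
  exact h (Additive.toMul a)

/-- a homomorphism from its values -/
def mkHm (f : H → M) (hf : ∀ a b, f (a * b) = f a + f b) : Hm H M where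
  toFun a := f (Additive.toMul a)
  map_zero' := by
    have := hf 1 1
    rw [mul_one] at this
    show f 1 = 0
    exact left_eq_add.1 this
  map_add' a b := hf _ _

@[simp] theorem hmv_mk (f : H → M) (hf : ∀ a b, f (a * b) = f a + f b) (a : H) :
    hmv (mkHm f hf) a = f a := rfl

theorem hmv_zero (a : H) : hmv (0 : Hm H M) a = 0 := rfl

theorem hmv_add (φ ψ : Hm H M) (a : H) : hmv (φ + ψ) a = hmv φ a + hmv ψ a := rfl

/-- restriction to a subgroup -/
def resm (A : Subgroup H) (φ : Hm H M) : Hm ↥A M :=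
  mkHm (fun a => hmv φ a.1) (fun _ _ => hmv_mul φ _ _)

@[simp] theorem hmv_resm (A : Subgroup H) (φ : Hm H M) (a : ↥A) :
    hmv (resm A φ) a = hmv φ a.1 := rfl

/-- a homomorphism which vanishes on generators vanishes -/
theorem hmv_closure {S : Set H} {φ : Hm H M} (h : ∀ s ∈ S, hmv φ s = 0) {a : H}
    (ha : a ∈ Subgroup.closure S) : hmv φ a = 0 := by
  induction ha using Subgroup.closure_induction with
  | mem x hx => exact h x hx
  | one => exact hmv_one φ
  | mul x y _ _ hx hy => rw [hmv_mul, hx, hy, add_zero]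
  | inv x _ hx => rw [hmv_inv, hx, neg_zero]

/-- two homomorphisms which agree on generators agree -/
theorem hmv_closure_eq {S : Set H} {φ ψ : Hm H M} (h : ∀ s ∈ S, hmv φ s = hmv ψ s) {a : H}
    (ha : a ∈ Subgroup.closure S) : hmv φ a = hmv ψ a := by
  induction ha using Subgroup.closure_induction with
  | mem x hx => exact h x hx
  | one => rw [hmv_one, hmv_one]
  | mul x y _ _ hx hy => rw [hmv_mul, hmv_mul, hx, hy]
  | inv x _ hx => rw [hmv_inv, hmv_inv, hx]

end

/-! ### trees -/

section tree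

variable {X M : Type} [AddCommGroup M]

/-- potentials on trees with values in `M` -/
theorem tree_potm (G : SimpleGraph X) (hG : G.IsTree) (c : X → X → M)
    (hs : ∀ u v, G.Adj u v → c u v = - c v u) :
    ∃ p : X → M, ∀ u v, G.Adj u v → c u v = p v - p u := by
  classical
  obtain ⟨r⟩ := hG.connected.nonempty
  have hex : ∀ w, ∃ q : G.Walk r w, q.IsPath ∧ q.length = G.dist r w := fun w =>
    hG.connected.exists_path_of_dist r w
  choose P hP hPl using hex
  let σ : ∀ {a b : X}, G.Walk a b → M := fun q => (q.darts.map (fun d => c d.fst d.snd)).sum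
  have key : ∀ u v, G.Adj u v → G.dist r v = G.dist r u + 1 → σ (P v) = σ (P u) + c u v := by
    intro u v huv hd
    have hc : ((P u).concat huv).IsPath := by
      apply SimpleGraph.Walk.isPath_of_length_eq_dist
      rw [SimpleGraph.Walk.length_concat, hPl, hd]
    have e : (P u).concat huv = P v :=
      (hG.existsUnique_path r v).unique hc (hP v)
    rw [← e]
    change ((((P u).concat huv).darts.map (fun d => c d.fst d.snd)).sum) = _
    rw [SimpleGraph.Walk.darts_concat]
    simp [σ]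
  refine ⟨fun w => σ (P w), fun u v huv => ?_⟩
  dsimp only
  rcases hG.dist_eq_dist_add_one_of_adj r huv with e | e
  · rw [key v u huv.symm e, hs u v huv]
    abel
  · rw [key u v huv e]
    abel

/-- connectedness -/
theorem tree_constm {G : SimpleGraph X} (hG : G.IsTree) {α : Type*} {f : X → α}
    (h : ∀ u v, G.Adj u v → f u = f v) (u v : X) : f u = f v := by
  obtain ⟨p⟩ := hG.connected.preconnected u v
  induction p with
  | nil => rfl
  | cons e _ ih => exact (h _ _ e).trans ih

variable {H : Type} [Group H] [MulAction H X]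

/-- homomorphisms from a cocycle and a function on the edges -/
theorem exists_homM_aux {G : SimpleGraph X} (hG : G.IsTree)
    (hsm : ∀ (h : H) (x y : X), G.Adj x y → G.Adj (h • x) (h • y)) (θ : X → H → M)
    (hθ : ∀ x a b, θ x (a * b) = θ (b • x) a + θ x b) (c : X → X → M)
    (hc : ∀ x y, G.Adj x y → c x y = - c y x)
    (h : ∀ x y, G.Adj x y → ∀ a : H, θ x a - θ y a = c (a • x) (a • y) - c x y) :
    ∃ (φ : Hm H M) (p : X → M), (∀ x y, G.Adj x y → c x y = p y - p x) ∧
      ∀ x a, hmv φ a = θ x a + (p (a • x) - p x) := by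
  obtain ⟨p, hp⟩ := tree_potm G hG c hc
  have key : ∀ (a : H) (x y : X), θ x a + (p (a • x) - p x) = θ y a + (p (a • y) - p y) := by
    intro a x y
    refine tree_constm hG (f := fun x => θ x a + (p (a • x) - p x)) ?_ x y
    intro x y e
    have h1 := h x y e a
    rw [hp _ _ (hsm a _ _ e), hp _ _ e] at h1
    show θ x a + (p (a • x) - p x) = θ y a + (p (a • y) - p y)
    have h2 : θ x a = θ y a + (p (a • y) - p (a • x) - (p y - p x)) := by
      rw [← h1]
      abel
    rw [h2]
    abel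
  obtain ⟨r⟩ := hG.connected.nonempty
  refine ⟨mkHm (fun a => θ r a + (p (a • r) - p r)) ?_, p, hp, ?_⟩
  · intro a b
    have h1 := hθ r a b
    have h2 := key a r (b • r)
    rw [h1, mul_smul, h2]
    abel
  · intro x a
    rw [hmv_mk]
    exact key a r x

/-- The extension lemma: an equivariant family of homomorphisms of the stabilisers which agree on
the stabilisers of the edges comes from a homomorphism of the group. `pos` is an invariant
orientation of the edges. -/
theorem exists_homM {G : SimpleGraph X} (hG : G.IsTree)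
    (hsm : ∀ (h : H) (x y : X), G.Adj x y → G.Adj (h • x) (h • y)) (pos : X → X → Prop)
    (hpos : ∀ (h : H) (x y : X), pos x y → pos (h • x) (h • y))
    (hpn : ∀ x y, G.Adj x y → (pos x y ↔ ¬ pos y x)) (ψ : X → H → M)
    (hψ : ∀ x a b, a • x = x → b • x = x → ψ x (a * b) = ψ x a + ψ x b)
    (heq : ∀ x (h a : H), a • x = x → ψ (h • x) (h * a * h⁻¹) = ψ x a)
    (hcp : ∀ x y, G.Adj x y → ∀ a : H, a • x = x → a • y = y → ψ x a = ψ y a) :
    ∃ φ : Hm H M, ∀ x (a : H), a • x = x → hmv φ a = ψ x a := by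
  classical
  -- representatives of the orbits of the vertices
  let r : X → X := fun x => Quotient.out (Quotient.mk'' x : orbitRel.Quotient H X)
  have hr : ∀ x, ∃ g : H, g • r x = x := by
    intro x
    have h1 : (Quotient.mk'' (r x) : orbitRel.Quotient H X) = Quotient.mk'' x :=
      Quotient.out_eq' (s₁ := orbitRel H X) _
    have h2 : (orbitRel H X).r x (r x) := Quotient.exact h1.symm
    exact h2
  have hrr : ∀ x (h : H), r (h • x) = r x := by
    intro x h
    have : (Quotient.mk'' (h • x) : orbitRel.Quotient H X) = Quotient.mk'' x :=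
      Quotient.sound (⟨h, rfl⟩ : (orbitRel H X).r (h • x) x)
    show Quotient.out _ = Quotient.out _
    rw [this]
  choose g hg using hr
  -- the cocycle
  let θ : X → H → M := fun x a => ψ (r x) ((g (a • x))⁻¹ * a * g x)
  have hst : ∀ x (a : H), ((g (a • x))⁻¹ * a * g x) • r x = r x := by
    intro x a
    rw [mul_smul, hg, mul_smul, inv_smul_eq_iff]
    have := hg (a • x)
    rw [hrr] at this
    exact this.symm
  have hθ : ∀ x a b, θ x (a * b) = θ (b • x) a + θ x b := by
    intro x a b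
    have e1 : (g ((a * b) • x))⁻¹ * (a * b) * g x =
        ((g (a • b • x))⁻¹ * a * g (b • x)) * ((g (b • x))⁻¹ * b * g x) := by
      rw [mul_smul]
      group
    show ψ (r x) ((g ((a * b) • x))⁻¹ * (a * b) * g x) =
      ψ (r (b • x)) ((g (a • b • x))⁻¹ * a * g (b • x)) + ψ (r x) ((g (b • x))⁻¹ * b * g x)
    rw [e1, hrr]
    apply hψ
    · have := hst (b • x) a
      rwa [hrr] at this
    · exact hst x b
  -- the restriction to the stabilisers
  have hθψ : ∀ x a, a • x = x → θ x a = ψ x a := by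
    intro x a ha
    have h1 := heq (r x) (g x) ((g (a • x))⁻¹ * a * g x) (hst x a)
    rw [hg] at h1
    show ψ (r x) ((g (a • x))⁻¹ * a * g x) = ψ x a
    rw [← h1, ha]
    congr 1
    group
  -- the function on the edges
  let rp : X × X → X × X := fun p => Quotient.out (Quotient.mk'' p : orbitRel.Quotient H (X × X))
  have hrp : ∀ p, ∃ k : H, k • rp p = p := by
    intro p
    have h1 : (Quotient.mk'' (rp p) : orbitRel.Quotient H (X × X)) = Quotient.mk'' p :=
      Quotient.out_eq' (s₁ := orbitRel H (X × X)) _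
    have h2 : (orbitRel H (X × X)).r p (rp p) := Quotient.exact h1.symm
    exact h2
  have hrrp : ∀ p (h : H), rp (h • p) = rp p := by
    intro p h
    have : (Quotient.mk'' (h • p) : orbitRel.Quotient H (X × X)) = Quotient.mk'' p :=
      Quotient.sound (⟨h, rfl⟩ : (orbitRel H (X × X)).r (h • p) p)
    show Quotient.out _ = Quotient.out _
    rw [this]
  choose k hk using hrp
  let c0 : X → X → M := fun x y => θ (rp (x, y)).1 (k (x, y)) - θ (rp (x, y)).2 (k (x, y))
  have hk1 : ∀ x y, k (x, y) • (rp (x, y)).1 = x := fun x y => congrArg Prod.fst (hk (x, y))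
  have hk2 : ∀ x y, k (x, y) • (rp (x, y)).2 = y := fun x y => congrArg Prod.snd (hk (x, y))
  have hadj : ∀ x y, G.Adj x y → G.Adj (rp (x, y)).1 (rp (x, y)).2 := by
    intro x y e
    have := hsm (k (x, y))⁻¹ _ _ e
    have e1 : (k (x, y))⁻¹ • x = (rp (x, y)).1 := by rw [inv_smul_eq_iff, hk1]
    have e2 : (k (x, y))⁻¹ • y = (rp (x, y)).2 := by rw [inv_smul_eq_iff, hk2]
    rwa [e1, e2] at this
  have hc0 : ∀ x y, G.Adj x y → ∀ a : H, θ x a - θ y a = c0 (a • x) (a • y) - c0 x y := by
    intro x y e a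
    have er : rp (a • x, a • y) = rp (x, y) := hrrp (x, y) a
    let j : H := (a * k (x, y))⁻¹ * k (a • x, a • y)
    have ej : k (a • x, a • y) = a * k (x, y) * j := by
      show _ = a * k (x, y) * ((a * k (x, y))⁻¹ * k (a • x, a • y))
      group
    have j1 : j • (rp (x, y)).1 = (rp (x, y)).1 := by
      show ((a * k (x, y))⁻¹ * k (a • x, a • y)) • (rp (x, y)).1 = _
      have h1 := hk1 (a • x) (a • y)
      rw [er] at h1
      rw [mul_smul, h1, inv_smul_eq_iff, mul_smul, hk1]
    have j2 : j • (rp (x, y)).2 = (rp (x, y)).2 := by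
      show ((a * k (x, y))⁻¹ * k (a • x, a • y)) • (rp (x, y)).2 = _
      have h1 := hk2 (a • x) (a • y)
      rw [er] at h1
      rw [mul_smul, h1, inv_smul_eq_iff, mul_smul, hk2]
    have d1 : θ (rp (x, y)).1 (k (a • x, a • y)) =
        θ x a + θ (rp (x, y)).1 (k (x, y)) + ψ (rp (x, y)).1 j := by
      rw [ej, hθ, j1, hθ, hk1, hθψ _ _ j1]
    have d2 : θ (rp (x, y)).2 (k (a • x, a • y)) =
        θ y a + θ (rp (x, y)).2 (k (x, y)) + ψ (rp (x, y)).2 j := by
      rw [ej, hθ, j2, hθ, hk2, hθψ _ _ j2]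
    have d3 := hcp _ _ (hadj x y e) j j1 j2
    show θ x a - θ y a = (θ (rp (a • x, a • y)).1 (k (a • x, a • y)) -
      θ (rp (a • x, a • y)).2 (k (a • x, a • y))) -
      (θ (rp (x, y)).1 (k (x, y)) - θ (rp (x, y)).2 (k (x, y)))
    rw [er, d1, d2, d3]
    abel
  have hposi : ∀ (h : H) (x y : X), pos (h • x) (h • y) ↔ pos x y := by
    intro h x y
    refine ⟨fun e => ?_, hpos h x y⟩
    have := hpos h⁻¹ _ _ e
    rwa [inv_smul_smul, inv_smul_smul] at this
  obtain ⟨φ, p, -, hφ⟩ := exists_homM_aux hG hsm θ hθ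
    (fun x y => if pos x y then c0 x y else - c0 y x)
    (fun x y e => by
      by_cases hp : pos x y
      · have hq : ¬ pos y x := (hpn x y e).1 hp
        simp only [if_pos hp, if_neg hq, neg_neg]
      · have hq : pos y x := by
          by_contra hq
          exact hp ((hpn x y e).2 hq)
        simp only [if_neg hp, if_pos hq]) (fun x y e a => by
      have h1 := hc0 x y e a
      have h2 := hc0 y x e.symm a
      by_cases hp : pos x y
      · have hp' : pos (a • x) (a • y) := (hposi a x y).2 hp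
        simp only [if_pos hp, if_pos hp']
        exact h1
      · have hp' : ¬ pos (a • x) (a • y) := fun h => hp ((hposi a x y).1 h)
        simp only [if_neg hp, if_neg hp']
        have h3 : θ x a - θ y a = -(θ y a - θ x a) := by abel
        rw [h3, h2]
        abel)
  refine ⟨φ, fun x a ha => ?_⟩
  rw [hφ x a, ha, hθψ x a ha]
  abel

end tree

section laws

variable {X M : Type} [AddCommGroup M] {H : Type} [Group H] [MulAction H X]

/-- a homomorphism of a subgroup as a function on the group -/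
noncomputable def exm {A : Subgroup H} (ψ : Hm ↥A M) (a : H) : M :=
  open Classical in if h : a ∈ A then hmv ψ ⟨a, h⟩ else 0

theorem exm_of {A : Subgroup H} (ψ : Hm ↥A M) {a : H} (h : a ∈ A) : exm ψ a = hmv ψ ⟨a, h⟩ :=
  dif_pos h

theorem exm_mul {A : Subgroup H} (ψ : Hm ↥A M) {a b : H} (ha : a ∈ A) (hb : b ∈ A) :
    exm ψ (a * b) = exm ψ a + exm ψ b := by
  rw [exm_of ψ ha, exm_of ψ hb, exm_of ψ (A.mul_mem ha hb), ← hmv_mul]
  rfl

theorem exm_conj {A : Subgroup H} (ψ : Hm ↥A M) {a b : H} (ha : a ∈ A) (hb : b ∈ A) :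
    exm ψ (a * b * a⁻¹) = exm ψ b := by
  rw [exm_of ψ (A.mul_mem (A.mul_mem ha hb) (A.inv_mem ha)), exm_of ψ hb,
    ← hmv_conj ψ ⟨a, ha⟩ ⟨b, hb⟩]
  rfl

/-- the family of homomorphisms of an orbit -/
theorem famm_mul {w x : X} (ψ : Hm ↥(stabilizer H w) M) {k : H} (hk : k • w = x) {a b : H}
    (ha : a • x = x) (hb : b • x = x) :
    exm ψ (k⁻¹ * (a * b) * k) = exm ψ (k⁻¹ * a * k) + exm ψ (k⁻¹ * b * k) := by
  have h1 : k⁻¹ * a * k ∈ stabilizer H w := by
    rw [mem_stabilizer_iff, mul_smul, mul_smul, hk, ha, inv_smul_eq_iff, hk]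
  have h2 : k⁻¹ * b * k ∈ stabilizer H w := by
    rw [mem_stabilizer_iff, mul_smul, mul_smul, hk, hb, inv_smul_eq_iff, hk]
  rw [← exm_mul ψ h1 h2]
  congr 1
  group

theorem famm_eq {w x : X} (ψ : Hm ↥(stabilizer H w) M) {k k' : H} (hk : k • w = x)
    (hk' : k' • w = x) {a : H} (ha : a • x = x) :
    exm ψ (k⁻¹ * a * k) = exm ψ (k'⁻¹ * a * k') := by
  have h1 : k⁻¹ * a * k ∈ stabilizer H w := by
    rw [mem_stabilizer_iff, mul_smul, mul_smul, hk, ha, inv_smul_eq_iff, hk]
  have h2 : k'⁻¹ * k ∈ stabilizer H w := by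
    rw [mem_stabilizer_iff, mul_smul, hk, inv_smul_eq_iff, hk']
  rw [← exm_conj ψ h2 h1]
  congr 1
  group

section inv

variable {G : SimpleGraph X} (hG : G.IsTree)
  (hsm : ∀ (h : H) (x y : X), G.Adj x y → G.Adj (h • x) (h • y)) {w u : X}
  (he : ∀ x y, G.Adj x y → ∃ h : H, (h • w = x ∧ h • u = y) ∨ (h • w = y ∧ h • u = x))
  (hwu : G.Adj w u)

include hG he hwu in
theorem inv_orbm (x : X) : ∃ h : H, h • w = x ∨ h • u = x := by
  by_cases hx : x = w
  · exact ⟨1, Or.inl (by rw [one_smul, hx])⟩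
  · obtain ⟨c, hc, -⟩ := Pool.Agent.SAF.exists_next hG hx
    obtain ⟨h, ⟨h1, h2⟩ | ⟨h1, h2⟩⟩ := he _ _ hc
    · exact ⟨h, Or.inl h1⟩
    · exact ⟨h, Or.inr h2⟩

include hG hsm he hwu in
/-- extension for an amalgam -/
theorem exists_homM_inv (hne : ∀ h : H, h • w ≠ u) (ψw : Hm ↥(stabilizer H w) M)
    (ψu : Hm ↥(stabilizer H u) M)
    (hc : ∀ (a : H) (ha : a ∈ stabilizer H w) (hb : a ∈ stabilizer H u),
      hmv ψw ⟨a, ha⟩ = hmv ψu ⟨a, hb⟩) :
    ∃ φ : Hm H M, resm _ φ = ψw ∧ resm _ φ = ψu := by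
  classical
  have hne' : ∀ (h k : H), h • w ≠ k • u := by
    intro h k e
    apply hne (k⁻¹ * h)
    rw [mul_smul, e, inv_smul_smul]
  -- the family
  let ψ : X → H → M := fun x a =>
    if hx : ∃ h : H, h • w = x then exm ψw (hx.choose⁻¹ * a * hx.choose)
    else if hx' : ∃ h : H, h • u = x then exm ψu (hx'.choose⁻¹ * a * hx'.choose) else 0
  have hw : ∀ (x : X) (k a : H), k • w = x → a • x = x → ψ x a = exm ψw (k⁻¹ * a * k) := by
    intro x k a hk ha
    have hx : ∃ h : H, h • w = x := ⟨k, hk⟩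
    show (if hx : ∃ h : H, h • w = x then exm ψw (hx.choose⁻¹ * a * hx.choose) else _) = _
    rw [dif_pos hx]
    exact famm_eq ψw hx.choose_spec hk ha
  have hu : ∀ (x : X) (k a : H), k • u = x → a • x = x → ψ x a = exm ψu (k⁻¹ * a * k) := by
    intro x k a hk ha
    have hx : ¬ ∃ h : H, h • w = x := by
      rintro ⟨h, hh⟩
      exact hne' h k (hh.trans hk.symm)
    have hx' : ∃ h : H, h • u = x := ⟨k, hk⟩
    show (if hx : ∃ h : H, h • w = x then exm ψw (hx.choose⁻¹ * a * hx.choose) else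
      if hx' : ∃ h : H, h • u = x then exm ψu (hx'.choose⁻¹ * a * hx'.choose) else 0) = _
    rw [dif_neg hx, dif_pos hx']
    exact famm_eq ψu hx'.choose_spec hk ha
  obtain ⟨φ, hφ⟩ := exists_homM hG hsm (fun x _ => ∃ h : H, h • w = x) (by
    rintro h x y ⟨k, rfl⟩
    exact ⟨h * k, mul_smul _ _ _⟩) (by
    intro x y e
    constructor
    · rintro ⟨k, rfl⟩ ⟨k', e'⟩
      obtain ⟨h, ⟨h1, h2⟩ | ⟨h1, h2⟩⟩ := he _ _ e
      · exact hne' k' h (e'.trans h2.symm)
      · exact hne' k h h2.symm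
    · intro hn
      obtain ⟨h, ⟨h1, h2⟩ | ⟨h1, h2⟩⟩ := he _ _ e
      · exact ⟨h, h1⟩
      · exact absurd ⟨h, h1⟩ hn) ψ (by
    intro x a b ha hb
    have hab : (a * b) • x = x := by rw [mul_smul, hb, ha]
    obtain ⟨k, hk | hk⟩ := inv_orbm hG he hwu x
    · rw [hw x k _ hk hab, hw x k _ hk ha, hw x k _ hk hb]
      exact famm_mul ψw hk ha hb
    · rw [hu x k _ hk hab, hu x k _ hk ha, hu x k _ hk hb]
      exact famm_mul ψu hk ha hb) (by
    intro x h a ha
    have ha' : (h * a * h⁻¹) • h • x = h • x := by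
      rw [mul_smul, inv_smul_smul, mul_smul, ha]
    obtain ⟨k, hk | hk⟩ := inv_orbm hG he hwu x
    · have hk' : (h * k) • w = h • x := by rw [mul_smul, hk]
      rw [hw _ (h * k) _ hk' ha', hw x k a hk ha]
      congr 1
      group
    · have hk' : (h * k) • u = h • x := by rw [mul_smul, hk]
      rw [hu _ (h * k) _ hk' ha', hu x k a hk ha]
      congr 1
      group) (by
    have key : ∀ (k a : H), a • k • w = k • w → a • k • u = k • u →
        ψ (k • w) a = ψ (k • u) a := by
      intro k a h1 h2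
      rw [hw _ k a rfl h1, hu _ k a rfl h2]
      have e1 : k⁻¹ * a * k ∈ stabilizer H w := by
        rw [mem_stabilizer_iff, mul_smul, mul_smul, h1, inv_smul_smul]
      have e2 : k⁻¹ * a * k ∈ stabilizer H u := by
        rw [mem_stabilizer_iff, mul_smul, mul_smul, h2, inv_smul_smul]
      rw [exm_of ψw e1, exm_of ψu e2]
      exact hc _ e1 e2
    intro x y e a ha hb
    obtain ⟨k, ⟨rfl, rfl⟩ | ⟨rfl, rfl⟩⟩ := he _ _ e
    · exact key k a ha hb
    · exact (key k a hb ha).symm)
  refine ⟨φ, hmv_ext ?_, hmv_ext ?_⟩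
  · rintro ⟨a, ha⟩
    rw [hmv_resm, hφ w a ha, hw w 1 a (one_smul _ _) ha]
    have e1 : (1 : H)⁻¹ * a * 1 = a := by group
    rw [e1, exm_of ψw ha]
  · rintro ⟨a, ha⟩
    rw [hmv_resm, hφ u a ha, hu u 1 a (one_smul _ _) ha]
    have e1 : (1 : H)⁻¹ * a * 1 = a := by group
    rw [e1, exm_of ψu ha]

include hG hsm he hwu in
/-- the homomorphism `H → H_u / J` which kills `H_w` -/
theorem exists_chiUM (hne : ∀ h : H, h • w ≠ u) (m : M) (hm : m + m = 0)
    (h2 : ∀ a b : H, a • u = u → b • u = u → a • w ≠ w → b • w ≠ w → (a * b) • w = w) :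
    ∃ φ : Hm H M, (∀ a : H, a • w = w → hmv φ a = 0) ∧
      ∀ a : H, a • u = u → a • w ≠ w → hmv φ a = m := by
  classical
  let ψu : Hm ↥(stabilizer H u) M := mkHm (fun a => if a.1 • w = w then 0 else m) (by
    rintro ⟨a, ha⟩ ⟨b, hb⟩
    show (if (a * b) • w = w then (0 : M) else m) =
      (if a • w = w then 0 else m) + (if b • w = w then 0 else m)
    by_cases h : a • w = w
    · by_cases h' : b • w = w
      · rw [if_pos h, if_pos h', if_pos (by rw [mul_smul, h', h]), add_zero]
      · rw [if_pos h, if_neg h', if_neg, zero_add]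
        intro e
        apply h'
        rw [mul_smul] at e
        calc b • w = a⁻¹ • a • b • w := (inv_smul_smul _ _).symm
          _ = w := by rw [e, inv_smul_eq_iff, h]
    · by_cases h' : b • w = w
      · rw [if_neg h, if_pos h', if_neg, add_zero]
        intro e
        apply h
        rwa [mul_smul, h'] at e
      · rw [if_neg h, if_neg h', if_pos (h2 a b ha hb h h'), hm])
  obtain ⟨φ, h1, h3⟩ := exists_homM_inv hG hsm he hwu hne (0 : Hm ↥(stabilizer H w) M) ψu (by
    intro a ha hb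
    have ha' : a • w = w := ha
    show (0 : M) = if a • w = w then 0 else m
    rw [if_pos ha'])
  refine ⟨φ, fun a ha => ?_, fun a ha hn => ?_⟩
  · have := congrArg (fun χ => hmv χ (⟨a, ha⟩ : ↥(stabilizer H w))) h1
    exact this
  · have := congrArg (fun χ => hmv χ (⟨a, ha⟩ : ↥(stabilizer H u))) h3
    refine this.trans ?_
    show (if a • w = w then (0 : M) else m) = m
    rw [if_neg hn]

end inv

section hnn

variable {G : SimpleGraph X} (hG : G.IsTree)
  (hsm : ∀ (h : H) (x y : X), G.Adj x y → G.Adj (h • x) (h • y)) {w : X} {t : H}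
  (he : ∀ x y, G.Adj x y → ∃ h : H, (h • w = x ∧ h • t • w = y) ∨ (h • w = y ∧ h • t • w = x))
  (hall : ∀ x, ∃ h : H, h • w = x)
  (hni : ∀ (h : H) (x y : X), G.Adj x y → ¬ (h • x = y ∧ h • y = x))

include hG hsm he hall hni in
/-- extension for an HNN extension -/
theorem exists_homM_hnn (ψw : Hm ↥(stabilizer H w) M)
    (hc : ∀ (a : H) (ha : a ∈ stabilizer H w) (hb : t⁻¹ * a * t ∈ stabilizer H w),
      hmv ψw ⟨a, ha⟩ = hmv ψw ⟨_, hb⟩) : ∃ φ : Hm H M, resm _ φ = ψw := by
  choose g hg using hall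
  let ψ : X → H → M := fun x a => exm ψw ((g x)⁻¹ * a * g x)
  have hw : ∀ (x : X) (k a : H), k • w = x → a • x = x → ψ x a = exm ψw (k⁻¹ * a * k) :=
    fun x k a hk ha => famm_eq ψw (hg x) hk ha
  obtain ⟨φ, hφ⟩ := exists_homM hG hsm (fun x y => ∃ h : H, h • w = x ∧ h • t • w = y) (by
    rintro h x y ⟨k, rfl, rfl⟩
    exact ⟨h * k, mul_smul _ _ _, mul_smul _ _ _⟩) (by
    intro x y e
    constructor
    · rintro ⟨k, rfl, rfl⟩ ⟨k', h1, h2⟩
      apply hni (k' * k⁻¹) _ _ e
      refine ⟨?_, ?_⟩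
      · rw [mul_smul, inv_smul_smul, h1]
      · rw [mul_smul, inv_smul_smul, h2]
    · intro hn
      obtain ⟨h, ⟨h1, h2⟩ | ⟨h1, h2⟩⟩ := he _ _ e
      · exact ⟨h, h1, h2⟩
      · exact absurd ⟨h, h1, h2⟩ hn) ψ (fun x a b ha hb => famm_mul ψw (hg x) ha hb) (by
    intro x h a ha
    have ha' : (h * a * h⁻¹) • h • x = h • x := by
      rw [mul_smul, inv_smul_smul, mul_smul, ha]
    have hk' : (h * g x) • w = h • x := by rw [mul_smul, hg]
    rw [hw _ (h * g x) _ hk' ha', hw x (g x) a (hg x) ha]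
    congr 1
    group) (by
    have key : ∀ (k a : H), a • k • w = k • w → a • k • t • w = k • t • w →
        ψ (k • w) a = ψ (k • t • w) a := by
      intro k a h1 h2
      rw [hw _ k a rfl h1, hw _ (k * t) a (mul_smul _ _ _) h2]
      have e1 : k⁻¹ * a * k ∈ stabilizer H w := by
        rw [mem_stabilizer_iff, mul_smul, mul_smul, h1, inv_smul_smul]
      have e2 : t⁻¹ * (k⁻¹ * a * k) * t ∈ stabilizer H w := by
        rw [mem_stabilizer_iff, mul_smul, mul_smul, mul_smul, mul_smul, h2, inv_smul_smul,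
          inv_smul_smul]
      have e3 : (k * t)⁻¹ * a * (k * t) = t⁻¹ * (k⁻¹ * a * k) * t := by group
      rw [e3, exm_of ψw e1, exm_of ψw e2]
      exact hc _ e1 e2
    intro x y e a ha hb
    obtain ⟨k, ⟨rfl, rfl⟩ | ⟨rfl, rfl⟩⟩ := he x y e
    · exact key k a ha hb
    · exact (key k a hb ha).symm)
  refine ⟨φ, ?_⟩
  apply hmv_ext
  rintro ⟨a, ha⟩
  rw [hmv_resm]
  show hmv φ a = _
  rw [hφ w a ha, hw w 1 a (one_smul _ _) ha, inv_one, one_mul, mul_one, exm_of ψw ha]

include hG hsm he hni in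
/-- the homomorphism of the stable letter -/
theorem exists_homM_t (hwt : G.Adj w (t • w)) (m : M) :
    ∃ φ : Hm H M, resm (stabilizer H w) φ = 0 ∧ hmv φ t = m := by
  classical
  let c : X → X → M := fun x y =>
    if ∃ h : H, h • w = x ∧ h • t • w = y then m else -m
  have hc1 : ∀ k : H, c (k • w) (k • t • w) = m := fun k => if_pos ⟨k, rfl, rfl⟩
  have hc2 : ∀ k : H, c (k • t • w) (k • w) = -m := by
    intro k
    apply if_neg
    rintro ⟨h, h1, h2⟩
    apply hni (k⁻¹ * h) w (t • w) hwt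
    refine ⟨?_, ?_⟩
    · rw [mul_smul, h1, inv_smul_smul]
    · rw [mul_smul, h2, inv_smul_smul]
  obtain ⟨φ, p, hp, hφ⟩ := exists_homM_aux (H := H) hG hsm (fun _ _ => 0)
    (fun _ _ _ => (add_zero _).symm) c (by
      intro x y e
      obtain ⟨k, ⟨rfl, rfl⟩ | ⟨rfl, rfl⟩⟩ := he x y e
      · rw [hc1, hc2, neg_neg]
      · rw [hc1, hc2]) (by
      intro x y e a
      obtain ⟨k, ⟨rfl, rfl⟩ | ⟨rfl, rfl⟩⟩ := he x y e
      · have e1 : a • k • w = (a * k) • w := (mul_smul _ _ _).symm
        have e2 : a • k • t • w = (a * k) • t • w := (mul_smul _ _ _).symm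
        rw [e1, e2, hc1, hc1]; abel
      · have e1 : a • k • w = (a * k) • w := (mul_smul _ _ _).symm
        have e2 : a • k • t • w = (a * k) • t • w := (mul_smul _ _ _).symm
        rw [e1, e2, hc2, hc2]; abel)
  refine ⟨φ, ?_, ?_⟩
  · apply hmv_ext
    rintro ⟨a, ha⟩
    rw [hmv_resm, hmv_zero]
    show hmv φ a = 0
    have ha' : a • w = w := ha
    rw [hφ w a, ha']
    abel
  · have h1 := hc1 1
    rw [one_smul, one_smul] at h1
    have h2 := hp _ _ hwt
    rw [hφ w t, ← h2, h1]
    abel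

end hnn

end laws

end Pool.Agent.DI
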