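import Pool.Agent.DI.PzW
import Pool.Agent.DI.WallP
import Pool.Agent.DI.P4V
import Pool.Agent.DI.GenV

/-!
# The laws of `p_4` and `p_5` at walls which are not of type `Z` (owner: helper19)

`Psv.p5_D`: `p_5` drops in case F (63's `Psv.p5_F` and 78's `Psv.cf_wt`). `Psv.p4_eq`: `p_4` does not grow,
and the case of equality (57, 24, 78). `Psv.law_tD`: at a wall which is not of type `Z` `p_4` drops, or
`p_4` does not grow and `p_5` drops. Inputs: `tu` the sinks `t_u` are in cells (66), `hx` the class of the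
folded slice (33), `hts` [TS] (45), `hG` Lemma S (24), `hdq` (64), `uq` one orbit of crossing corners
(74, 78).
-/

namespace Pool.Agent.DI

open MulAction
open Pool.Agent.SAF (InC orbs FinOrb TAct Conv exists_next)
open Pool.Agent.SAG (IO Zt)
open Pool.Agent.BT (bey mst Hyp)
open Pool.Agent.BT.TA

namespace SyQ

variable {H V : Type} [Group H] [MulAction H V] {S : SyQ H V} {w : S.X} {O : S.OR w}
  {E : V → Prop}

/-- THE LAW OF `p_5` IN CASE F -/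
theorem Psv.p5_D (h : S.Psv w O E)
    (tu : ∀ u, (S.kf h.gd.conn w O).VC (S.fq w O (Sum.inr u)))
    (hx : KX1 (O := O) (k0_min h.gd.conn h.wm) (S.sqN h.gd.conn w O)) (hts : S.TSp w)
    (uq : ∀ u w', S.Inv1 w u → S.Plc w u w' → S.UqR w u w')
    (hcf : ∃ u, S.Inv1 w u ∧ S.CF u) :
    (h.kP O).thin.p5 + 1 ≤ S.K.p5 := by
  obtain ⟨u, i, cf⟩ := hcf
  obtain ⟨w', v, z1, z2, r, t⟩ := h.cf_wt uq i cf
  exact h.p5_F t tu hx hts h.bw (fun v hv => (h.bo u i v hv).1)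

/-- THE LAW OF `p_4`, with the case of equality -/
theorem Psv.p4_eq (h : S.Psv w O E)
    (tu : ∀ u, (S.kf h.gd.conn w O).VC (S.fq w O (Sum.inr u)))
    (hx : KX1 (O := O) (k0_min h.gd.conn h.wm) (S.sqN h.gd.conn w O)) (hts : S.TSp w)
    (hG : S.Gen4)
    (hdq : ∀ q u u', S.J q = {w} → S.Dia w u q → S.Dia w u' q → u ≠ u' → ∀ g : H, g • q = q →
      (∀ b, S.K.ar q b → g • b = b) → ∃ v, S.D.G.Adj w v ∧ g • v = v)
    (uq : ∀ u w', S.Inv1 w u → S.Plc w u w' → S.UqR w u w') :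
    (h.kP O).thin.p4 ≤ S.K.p4 ∧ (S.K.p4 ≤ (h.kP O).thin.p4 →
      (S.ZW w ∧ ∀ u, S.Inv1 w u → ∀ c : H, c • u = u → c • w ≠ w → IO c) ∨
      (¬ S.ZW w ∧ ∃ u, S.Inv1 w u ∧ S.CF u)) :=
  h.p4_law tu (fun hN φ hφ => h.hP4 (h.pz tu) (h.lvg hx hts) hG hdq hN φ hφ)
    (fun u i φ hφ hU => h.hPF4 (h.pz tu) (h.lvg hx hts) hG hdq u i φ hφ hU) (h.hN uq)

/-- THE LAW AT A WALL WHICH IS NOT OF TYPE `Z` -/
theorem Psv.law_tD (h : S.Psv w O E)
    (tu : ∀ u, (S.kf h.gd.conn w O).VC (S.fq w O (Sum.inr u)))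
    (hx : KX1 (O := O) (k0_min h.gd.conn h.wm) (S.sqN h.gd.conn w O)) (hts : S.TSp w)
    (hG : S.Gen4)
    (hdq : ∀ q u u', S.J q = {w} → S.Dia w u q → S.Dia w u' q → u ≠ u' → ∀ g : H, g • q = q →
      (∀ b, S.K.ar q b → g • b = b) → ∃ v, S.D.G.Adj w v ∧ g • v = v)
    (uq : ∀ u w', S.Inv1 w u → S.Plc w u w' → S.UqR w u w') (hz : ¬ S.ZW w) :
    (h.kP O).thin.p4 < S.K.p4 ∨
      ((h.kP O).thin.p4 ≤ S.K.p4 ∧ (h.kP O).thin.p5 < S.K.p5) := by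
  obtain ⟨h1, h2⟩ := h.p4_eq tu hx hts hG hdq uq
  rcases Nat.lt_or_ge (h.kP O).thin.p4 S.K.p4 with k | k
  · exact Or.inl k
  · rcases h2 k with ⟨hz', -⟩ | ⟨-, hcf⟩
    · exact absurd hz' hz
    · exact Or.inr ⟨h1, h.p5_D tu hx hts uq hcf⟩

end SyQ

end Pool.Agent.DI
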