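import Pool.Agent.DI.FCq
import Pool.Agent.DI.P5Def

/-!
# `P_4`, `P_5` under a merge (owner: helper19)

`M : FM C C1` with `M.Mer` (48: the merge law, all strands are kept). `FM.Mer.kill5`: a character in `P_5`
of the quotient kills the elements which keep a piece with a strand and fix the vertex and its
poles; `FM.Mer.kill4`: the same for `P_4`.
-/

namespace Pool.Agent.DI

open MulAction
open Pool.Agent.SAF (InC orbs FinOrb)
open Pool.Agent.SAG (IO Zt)

namespace FM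

variable {H V F V1 F1 : Type} [Group H] [MulAction H V] [MulAction H F] [MulAction H V1]
    [MulAction H F1] {K : GX H V} {K1 : GX H V1} {C : FC K F} {C1 : FC K1 F1} {M : FM C C1}

namespace Mer

variable (R : M.Mer)
include R

/-- a piece with a strand -/
theorem pg (hCo : ∀ a y b, C1.Co a y b → K1.Cor a y b) (hIJ : ∀ y a b, C1.IJ y a b → K1.IJ y a b)
    {y n m : V} {e : F} (h : C.IJ y n m) (he : e ∈ C.strs) (hx : C.x e = m) (hy : C.y e = y) {a : H}
    (hay : a • y = y) (hij : C.IJ y n (a • n)) :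
    K1.PG (M.f y) (M.f m) a ∧ K1.ar (M.f y) (M.f (C.z e)) ∧ K.ar y (C.z e) := by
  obtain ⟨g, rfl⟩ := R.ds e he
  have h1 : K1.ar (C1.x g) (C1.y g) := (R.mem_strs.2 he).1
  have h2 : K1.ar (C1.y g) (C1.z g) := (R.mem_strs.2 he).2
  have h3 : C.IJ y m (a • m) := by
    have := FC.IJ.smul a h
    rw [hay] at this
    exact (h.symm'.trans' hij).trans' this
  have h4 := R.ij h3
  rw [M.f_smul] at h4
  have e1 : C1.x g = M.f m := by rw [← M.x_ph, hx]
  have e2 : C1.y g = M.f y := by rw [← M.y_ph, hy]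
  have e3 : C1.z g = M.f (C.z (M.ph g)) := (M.z_ph g).symm
  have hco := hCo _ _ _ (FC.co (C := C1) g)
  rw [e1, e2] at h1
  rw [e2, e3] at h2
  rw [e1, e2, e3] at hco
  refine ⟨⟨⟨_, h2⟩, h1, GX.EC_iff.2 ⟨_, hco⟩, ?_, hIJ _ _ _ h4⟩, h2, ?_⟩
  · rw [← M.f_smul, hay]
  · have := he.2
    rwa [hy] at this

/-- `P_5` -/
theorem kill5 (hCo : ∀ a y b, C1.Co a y b → K1.Cor a y b)
    (hIJ : ∀ y a b, C1.IJ y a b → K1.IJ y a b) {φ : H2m H} (hφ : φ ∈ K1.P5)
    {y n m : V} {e : F} (h : C.IJ y n m) (he : e ∈ C.strs) (hx : C.x e = m) (hy : C.y e = y) {a : H}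
    (hay : a • y = y) (hp : ∀ c, K.ar y c → a • c = c) (hij : C.IJ y n (a • n)) :
    φ (Additive.ofMul a) = 0 := by
  obtain ⟨h1, h2, h3⟩ := R.pg hCo hIJ h he hx hy hay hij
  have hc : a • M.f (C.z e) = M.f (C.z e) := by rw [← M.f_smul, hp _ h3]
  refine hφ.2 _ _ _ h1 (fun B hB => ?_)
  have hgB : K1.ar (M.f y) (a • B) := by
    have := K1.ar_smul a _ _ hB
    rwa [h1.2.2.2.1] at this
  rcases K1.two (M.f y) (M.f (C.z e)) B (a • B) h2 hB hgB with e | e | e
  · rw [← e]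
    exact hc
  · exact e.symm
  · rw [← hc] at e
    have := smul_left_cancel _ e
    rw [← this]
    exact hc

/-- `P_4` -/
theorem kill4 (hCo : ∀ a y b, C1.Co a y b → K1.Cor a y b)
    (hIJ : ∀ y a b, C1.IJ y a b → K1.IJ y a b) {φ : H2m H} (hφ : φ ∈ K1.P4)
    {y n m : V} {e : F} (h : C.IJ y n m) (he : e ∈ C.strs) (hx : C.x e = m) (hy : C.y e = y) {a : H}
    (hay : a • y = y) (hij : C.IJ y n (a • n)) : φ (Additive.ofMul a) = 0 :=
  hφ.2 _ _ _ (R.pg hCo hIJ h he hx hy hay hij).1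

end Mer

end FM

end Pool.Agent.DI
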